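import Pool.Agent.SSF.App

/-!
# SSF: the theory of the example is superstable

A type over a model `N` is determined by its relations to countably many representatives of the classes of the equivalence
relations (`X2`), by finitely many truncations, which are elements of `N` (`X1`, `F7`), and by the equalities.
-/

set_option autoImplicit false

namespace SSF

open FirstOrder FirstOrder.Language

/-- The symbol for the inverse relation. -/
private def swp : Sy → Sy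
  | .E κ κ' s r => .E κ' κ s r
  | .P t t' s => .P t' t s

private theorem swp_iff (S : Sy) (x y : MM) : (swp S).Holds y x ↔ S.Holds x y := by
  cases S with
  | E κ κ' s r =>
    exact ⟨fun ⟨h1, h2, h3, h4, h5⟩ => ⟨h2, h1, h4, h3, fun i hi j hj => (h5 i hi j hj).symm⟩,
      fun ⟨h1, h2, h3, h4, h5⟩ => ⟨h2, h1, h4, h3, fun i hi j hj => (h5 i hi j hj).symm⟩⟩
  | P t t' s =>
    exact ⟨fun ⟨h1, h2, h3, h4, h5⟩ => ⟨h2, h1, h4, h3, fun i hi => (h5 i hi).symm⟩,
      fun ⟨h1, h2, h3, h4, h5⟩ => ⟨h2, h1, h4, h3, fun i hi => (h5 i hi).symm⟩⟩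

private theorem bd3 (S S' S'' : Sy) : ∃ K, S.bd K ∧ S'.bd K ∧ S''.bd K := by
  obtain ⟨K, h⟩ := S.exists_bd
  obtain ⟨K', h'⟩ := S'.exists_bd
  obtain ⟨K'', h''⟩ := S''.exists_bd
  exact ⟨K + K' + K'', S.bd_mono (by omega) h, S'.bd_mono (by omega) h', S''.bd_mono (by omega) h''⟩

section
variable {N : Type} [LL.Structure N]

section
variable (hN : N ⊨ LL.completeTheory MM) {n : ℕ} (p : ((LL[[N]]).completeTheory N).CompleteType (Fin n))
include hN

private theorem F1 (S : Sy) (b c : N ⊕ Fin n) : R p (swp S) c b ↔ R p S b c := by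
  obtain ⟨K, h1, h2, -⟩ := bd3 S (swp S) S
  obtain ⟨x, hx, -⟩ := type_approx' hN p ![b, c] K
  exact (hx _ h2 1 0).symm.trans ((swp_iff S _ _).trans (hx S h1 0 1))

private theorem Q_symm (b c : N ⊕ Fin n) : Q p b c ↔ Q p c b := by
  obtain ⟨x, -, hx⟩ := type_approx' hN p ![b, c] 0
  exact (hx 0 1).symm.trans (eq_comm.trans (hx 1 0))

private theorem F2 {κ κ' : Option ℕ} {s r : ℕ} {b c : N ⊕ Fin n} (h : R p (.E κ κ' s r) b c) :
    R p (.E κ' κ' s r) c c := by
  obtain ⟨K, h1, h2, -⟩ := bd3 (.E κ κ' s r) (.E κ' κ' s r) (.P 0 0 0)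
  obtain ⟨x, hx, -⟩ := type_approx' hN p ![b, c] K
  obtain ⟨g1, g2, g3, g4, g5⟩ := (hx _ h1 0 1).2 h
  exact (hx _ h2 1 1).1 ⟨g2, g2, g4, g4, fun _ _ _ _ => rfl⟩

private theorem F3 {κ κ' : Option ℕ} {s r : ℕ} {b c d : N ⊕ Fin n} (h : R p (.E κ' κ' s r) c d) :
    R p (.E κ κ' s r) b c ↔ R p (.E κ κ' s r) b d := by
  obtain ⟨K, h1, h2, -⟩ := bd3 (.E κ κ' s r) (.E κ' κ' s r) (.P 0 0 0)
  obtain ⟨x, hx, -⟩ := type_approx' hN p ![b, c, d] K
  obtain ⟨g1, g2, g3, g4, g5⟩ := (hx _ h2 1 2).2 h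
  refine (hx _ h1 0 1).symm.trans (Iff.trans ⟨?_, ?_⟩ (hx _ h1 0 2))
  · rintro ⟨k1, k2, k3, k4, k5⟩
    exact ⟨k1, g2, k3, k4, fun i hi j hj => (k5 i hi j hj).trans (g5 i hi j hj)⟩
  · rintro ⟨k1, k2, k3, k4, k5⟩
    exact ⟨k1, g1, k3, k4, fun i hi j hj => (k5 i hi j hj).trans (g5 i hi j hj).symm⟩

private theorem F4 {t t' s : ℕ} {b c : N ⊕ Fin n} (h : R p (.P t t' s) b c) : R p (.P t' t' s) c c := by
  obtain ⟨K, h1, h2, -⟩ := bd3 (.P t t' s) (.P t' t' s) (.P 0 0 0)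
  obtain ⟨x, hx, -⟩ := type_approx' hN p ![b, c] K
  obtain ⟨g1, g2, g3, g4, g5⟩ := (hx _ h1 0 1).2 h
  exact (hx _ h2 1 1).1 ⟨g2, g2, g4, g4, fun _ _ => rfl⟩

private theorem F5 {t t' s : ℕ} {b c u : N ⊕ Fin n} (h : R p (.P t' s s) c u) :
    R p (.P t t' s) b c ↔ R p (.P t s s) b u := by
  obtain ⟨K, h1, h2, h3⟩ := bd3 (.P t t' s) (.P t' s s) (.P t s s)
  obtain ⟨x, hx, -⟩ := type_approx' hN p ![b, c, u] K
  obtain ⟨g1, g2, g3, g4, g5⟩ := (hx _ h2 1 2).2 h
  refine (hx _ h1 0 1).symm.trans (Iff.trans ⟨?_, ?_⟩ (hx _ h3 0 2))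
  · rintro ⟨k1, k2, k3, k4, k5⟩
    exact ⟨k1, g2, k3, g4, fun i hi => (k5 i hi).trans (g5 i hi)⟩
  · rintro ⟨k1, k2, k3, k4, k5⟩
    exact ⟨k1, g1, k3, g3, fun i hi => (k5 i hi).trans (g5 i hi).symm⟩

private theorem F6 {t s t₁ s₁ : ℕ} {b u u₁ : N ⊕ Fin n} (h : R p (.P t s s) b u)
    (h' : R p (.P t₁ s₁ s₁) b u₁) : t = t₁ ∧ s ≤ t := by
  obtain ⟨K, h1, h2, -⟩ := bd3 (.P t s s) (.P t₁ s₁ s₁) (.P 0 0 0)
  obtain ⟨x, hx, -⟩ := type_approx' hN p ![b, u, u₁] K
  obtain ⟨g1, g2, g3, g4, g5⟩ := (hx _ h1 0 1).2 h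
  obtain ⟨k1, k2, k3, k4, k5⟩ := (hx _ h2 0 2).2 h'
  exact ⟨Option.some_injective _ (g1.symm.trans k1), g3⟩

private theorem F7 {t s : ℕ} {b u u₁ : N ⊕ Fin n} (h : R p (.P t s s) b u) (h' : R p (.P t s s) b u₁) :
    Q p u u₁ := by
  obtain ⟨K, h1, -⟩ := bd3 (.P t s s) (.P 0 0 0) (.P 0 0 0)
  obtain ⟨x, hx, hx'⟩ := type_approx' hN p ![b, u, u₁] K
  obtain ⟨g1, g2, g3, g4, g5⟩ := (hx _ h1 0 1).2 h
  obtain ⟨k1, k2, k3, k4, k5⟩ := (hx _ h1 0 2).2 h'
  exact (hx' 1 2).1 (eq_of_rows g2 k2 fun i hi => (g5 i hi).symm.trans (k5 i hi))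

private theorem F8 {b u u₁ : N ⊕ Fin n} (h : Q p b u) (h' : Q p b u₁) : Q p u u₁ := by
  obtain ⟨x, -, hx⟩ := type_approx' hN p ![b, u, u₁] 0
  exact (hx 1 2).1 (((hx 0 1).2 h).symm.trans ((hx 0 2).2 h'))

private theorem D4_fin (i : Fin n) : {c : ℕ × ℕ × N | R p (.P c.1 c.2.1 c.2.1) (.inr i) (.inl c.2.2)}.Finite := by
  rcases Set.eq_empty_or_nonempty
    {c : ℕ × ℕ × N | R p (.P c.1 c.2.1 c.2.1) (.inr i) (.inl c.2.2)} with h | ⟨⟨t, s, u⟩, h⟩
  · rw [h]
    exact Set.finite_empty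
  · refine Set.Finite.of_finite_image (f := fun c : ℕ × ℕ × N => c.2.1) ?_ ?_
    · refine (Set.finite_Iic t).subset ?_
      rintro _ ⟨⟨t₁, s₁, u₁⟩, h1, rfl⟩
      obtain ⟨e, -⟩ := F6 hN p h h1
      have h2 := (F6 hN p h1 h1).2
      rw [← e] at h2
      exact h2
    · rintro ⟨t₁, s₁, u₁⟩ h1 ⟨t₂, s₂, u₂⟩ h2 h3
      have e1 := (F6 hN p h1 h2).1
      have h3' : s₁ = s₂ := h3
      have e1' : t₁ = t₂ := e1
      subst h3'
      subst e1'
      have h4 := (Q_inl p _ _).1 (F7 hN p h1 h2)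
      simp only at h4
      rw [h4]

private theorem D5_fin (i : Fin n) : {a : N | Q p (.inr i) (.inl a)}.Finite := by
  refine Set.Subsingleton.finite fun a ha b hb => ?_
  exact (Q_inl p _ _).1 (F8 hN p ha hb)

end

private theorem X1 (hN : N ⊨ LL.completeTheory MM) {t s : ℕ} (a : N) (h : rel (.P t t s) a a) :
    ∃ u : N, rel (.P t s s) a u := by
  have h1 := transfer hN ((atS (LHom.id LL) (.P t t s) (Term.var (0 : Fin 1)) (Term.var 0)).imp
    (Formula.iExs (Fin 1) (atS (LHom.id LL) (.P t s s) (Term.var (.inl 0 : Fin 1 ⊕ Fin 1)) (Term.var (.inr 0)))))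
    (by
      intro v
      rw [Formula.realize_imp, atS_realize, Formula.realize_iExs]
      intro h2
      obtain ⟨g1, g2, g3, g4, g5⟩ : (Sy.P t t s).Holds (v 0) (v 0) := h2
      refine ⟨fun _ => .inl (List.ofFn fun i : Fin s => row (v 0) i), ?_⟩
      rw [atS_realize]
      refine (show (Sy.P t s s).Holds (v 0) (.inl (List.ofFn fun i : Fin s => row (v 0) i)) from
        ⟨g1, ?_, g3, le_refl _, fun i hi => (row_ofFn s (row (v 0)) hi).symm⟩)
      show some (List.ofFn fun i : Fin s => row (v 0) i).length = some s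
      rw [List.length_ofFn]) (fun _ => a)
  rw [Formula.realize_imp, atS_realize, Formula.realize_iExs] at h1
  obtain ⟨u, hu⟩ := h1 h
  rw [atS_realize] at hu
  exact ⟨u 0, hu⟩

private theorem X2 (hN : N ⊨ LL.completeTheory MM) (κ : Option ℕ) (s r : ℕ) :
    ∃ A : Set N, A.Finite ∧ ∀ a, rel (.E κ κ s r) a a → ∃ a' ∈ A, rel (.E κ κ s r) a a' := by
  classical
  obtain ⟨K, hK⟩ := (Sy.E κ κ s r).exists_bd
  let st : Setoid {a : N // rel (.E κ κ s r) a a} :=
    { r := fun a b => rel (.E κ κ s r) a.1 b.1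
      iseqv := by
        refine ⟨fun a => a.2, ?_, ?_⟩
        · intro a b h
          obtain ⟨x, hx, -⟩ := model_approx hN ![a.1, b.1] K
          obtain ⟨g1, g2, g3, g4, g5⟩ := (hx _ hK 0 1).2 h
          exact (hx _ hK 1 0).1 ⟨g2, g1, g4, g3, fun i hi j hj => (g5 i hi j hj).symm⟩
        · intro a b c h h'
          obtain ⟨x, hx, -⟩ := model_approx hN ![a.1, b.1, c.1] K
          obtain ⟨g1, g2, g3, g4, g5⟩ := (hx _ hK 0 1).2 h
          obtain ⟨k1, k2, k3, k4, k5⟩ := (hx _ hK 1 2).2 h'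
          exact (hx _ hK 0 2).1 ⟨g1, k2, g3, k4, fun i hi j hj => (g5 i hi j hj).trans (k5 i hi j hj)⟩ }
  have hfin : Finite (Quotient st) := by
    by_contra hinf
    rw [not_finite_iff_infinite] at hinf
    let m := Fintype.card (Fin s × Fin r → Bool) + 1
    let f : Fin m → N := fun i => ((Infinite.natEmbedding (Quotient st) i).out : {a : N // rel (.E κ κ s r) a a}).1
    obtain ⟨x, hx, -⟩ := model_approx hN f K
    have hxx : ∀ i, kd (x i) = κ ∧ leK s κ := fun i => by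
      obtain ⟨g1, g2, g3, g4, g5⟩ := (hx _ hK i i).2 ((Infinite.natEmbedding (Quotient st) i).out).2
      exact ⟨g1, g3⟩
    obtain ⟨i, j, hij, he⟩ := Fintype.exists_ne_map_eq_of_card_lt
      (fun (i : Fin m) (a : Fin s × Fin r) => (row (x i) a.1).testBit a.2) (by simp [m])
    have h1 : rel (.E κ κ s r) (f i) (f j) := (hx _ hK i j).1 ⟨(hxx i).1, (hxx j).1, (hxx i).2, (hxx i).2,
      fun a ha b hb => congrFun he (⟨a, ha⟩, ⟨b, hb⟩)⟩
    have h2 : (Infinite.natEmbedding (Quotient st) i) = (Infinite.natEmbedding (Quotient st) j) := by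
      rw [← Quotient.out_eq (Infinite.natEmbedding (Quotient st) i),
        ← Quotient.out_eq (Infinite.natEmbedding (Quotient st) j)]
      exact Quotient.sound h1
    exact hij (Fin.ext ((Infinite.natEmbedding (Quotient st)).injective h2))
  refine ⟨Set.range fun c : Quotient st => c.out.1, Set.finite_range _, fun a ha => ?_⟩
  refine ⟨_, ⟨Quotient.mk st ⟨a, ha⟩, rfl⟩, ?_⟩
  exact st.symm (Quotient.mk_out (s := st) ⟨a, ha⟩)

end

private theorem Sy_countable : Countable Sy := by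
  have h : Function.Injective (fun S : Sy => (match S with
    | .E κ κ' s r => Sum.inl (κ, κ', s, r)
    | .P t t' s => Sum.inr (t, t', s) : (Option ℕ × Option ℕ × ℕ × ℕ) ⊕ (ℕ × ℕ × ℕ))) := by
    intro S S' h
    cases S <;> cases S' <;> simp_all
  exact h.countable

open Cardinal in
private theorem c_prod {A B : Type} {k : Cardinal.{0}} (hk : ℵ₀ ≤ k) (hA : #A ≤ k) (hB : #B ≤ k) :
    #(A × B) ≤ k := by
  rw [Cardinal.mk_prod, Cardinal.lift_id, Cardinal.lift_id]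
  exact Cardinal.mul_le_of_le hk hA hB

open Cardinal in
private theorem c_pi {A : Type} {n : ℕ} {k : Cardinal.{0}} (hk : ℵ₀ ≤ k) (hA : #A ≤ k) :
    #(Fin n → A) ≤ k := by
  have h1 : #(Fin n → A) = #A ^ n := by simp
  rw [h1]
  exact (Cardinal.power_le_power_right hA).trans (Cardinal.power_nat_le hk)

open Cardinal in
private theorem c_set {A : Type} [Countable A] : #(Set A) ≤ 𝔠 := by
  rw [Cardinal.mk_set, ← Cardinal.two_power_aleph0]
  exact Cardinal.power_le_power_left two_ne_zero (Cardinal.mk_le_aleph0)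

open Cardinal in
private theorem c_finset {A : Type} {k : Cardinal.{0}} (hk : ℵ₀ ≤ k) (hA : #A ≤ k) : #(Finset A) ≤ k := by
  rcases finite_or_infinite A with h | h
  · exact (Cardinal.mk_le_aleph0 (α := Finset A)).trans hk
  · rw [Cardinal.mk_finset_of_infinite]
    exact hA

open Cardinal in
theorem superstable : Superstable LL MM := by
  classical
  intro N _ hN n
  have hSy := Sy_countable
  choose A hA hA' using X2 hN
  let A0 : Set N := ⋃ c : Option ℕ × ℕ × ℕ, A c.1 c.2.1 c.2.2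
  have hA0 : A0.Countable := Set.countable_iUnion fun c => (hA _ _ _).countable
  have : Countable A0 := hA0.to_subtype
  let D : ((LL[[N]]).completeTheory N).CompleteType (Fin n) → Set (Sy × Fin n × Fin n) × Set (Fin n × Fin n) ×
      Set (Sy × Fin n × A0) × (Fin n → Finset (ℕ × ℕ × N)) × (Fin n → Finset N) := fun p =>
    ({c | R p c.1 (.inr c.2.1) (.inr c.2.2)}, {c | Q p (.inr c.1) (.inr c.2)},
      {c | R p c.1 (.inr c.2.1) (.inl c.2.2)}, fun i => (D4_fin hN p i).toFinset,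
      fun i => (D5_fin hN p i).toFinset)
  have hD : Function.Injective D := by
    intro p q hpq
    have e1 : ∀ S i j, R p S (.inr i) (.inr j) ↔ R q S (.inr i) (.inr j) := fun S i j =>
      iff_of_eq (congrArg (fun X => (S, i, j) ∈ X.1) hpq)
    have e2 : ∀ i j, Q p (.inr i) (.inr j) ↔ Q q (.inr i) (.inr j) := fun i j =>
      iff_of_eq (congrArg (fun X => (i, j) ∈ X.2.1) hpq)
    have e3 : ∀ S i (a : A0), R p S (.inr i) (.inl a) ↔ R q S (.inr i) (.inl a) := fun S i a =>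
      iff_of_eq (congrArg (fun X => (S, i, a) ∈ X.2.2.1) hpq)
    have e4 : ∀ t s i u, R p (.P t s s) (.inr i) (.inl u) ↔ R q (.P t s s) (.inr i) (.inl u) := by
      intro t s i u
      have h := iff_of_eq (congrArg (fun X => (t, s, u) ∈ X.2.2.2.1 i) hpq)
      simp only [D, Set.Finite.mem_toFinset] at h
      exact h
    have e5 : ∀ i a, Q p (.inr i) (.inl a) ↔ Q q (.inr i) (.inl a) := by
      intro i a
      have h := iff_of_eq (congrArg (fun X => a ∈ X.2.2.2.2 i) hpq)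
      simp only [D, Set.Finite.mem_toFinset] at h
      exact h
    have key : ∀ S i a, R p S (.inr i) (.inl a) ↔ R q S (.inr i) (.inl a) := by
      intro S i a
      cases S with
      | E κ κ' s r =>
        by_cases h : rel (.E κ' κ' s r) a a
        · obtain ⟨a', ha', h'⟩ := hA' κ' s r a h
          have ha0 : a' ∈ A0 := Set.mem_iUnion.2 ⟨(κ', s, r), ha'⟩
          exact (F3 hN p ((R_inl p _ _ _).2 h')).trans ((e3 _ i ⟨a', ha0⟩).trans
            (F3 hN q ((R_inl q _ _ _).2 h')).symm)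
        · exact ⟨fun h1 => absurd ((R_inl p _ _ _).1 (F2 hN p h1)) h,
            fun h1 => absurd ((R_inl q _ _ _).1 (F2 hN q h1)) h⟩
      | P t t' s =>
        by_cases h : rel (.P t' t' s) a a
        · obtain ⟨u, hu⟩ := X1 hN a h
          exact (F5 hN p ((R_inl p _ _ _).2 hu)).trans ((e4 t s i u).trans
            (F5 hN q ((R_inl q _ _ _).2 hu)).symm)
        · exact ⟨fun h1 => absurd ((R_inl p _ _ _).1 (F4 hN p h1)) h,
            fun h1 => absurd ((R_inl q _ _ _).1 (F4 hN q h1)) h⟩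
    refine type_ext hN p q ?_ ?_
    · rintro S (a | i) (b | j)
      · rw [R_inl, R_inl]
      · exact (F1 hN p S _ _).symm.trans ((key _ _ _).trans (F1 hN q S _ _))
      · exact key _ _ _
      · exact e1 _ _ _
    · rintro (a | i) (b | j)
      · rw [Q_inl, Q_inl]
      · exact (Q_symm hN p _ _).trans ((e5 _ _).trans (Q_symm hN q _ _))
      · exact e5 _ _
      · exact e2 _ _
  have hk : ℵ₀ ≤ max #N 𝔠 := le_max_of_le_right Cardinal.aleph0_le_continuum
  have hc : 𝔠 ≤ max #N 𝔠 := le_max_right _ _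
  have hNk : #N ≤ max #N 𝔠 := le_max_left _ _
  have hnat : #ℕ ≤ max #N 𝔠 := (Cardinal.mk_le_aleph0).trans hk
  refine (Cardinal.mk_le_of_injective hD).trans ?_
  exact c_prod hk (c_set.trans hc) (c_prod hk (c_set.trans hc) (c_prod hk (c_set.trans hc)
    (c_prod hk (c_pi hk (c_finset hk (c_prod hk hnat (c_prod hk hnat hNk)))) (c_pi hk (c_finset hk hNk)))))

end SSF
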