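import Pool.Agent.SSF.Sml
import Pool.Agent.SSF.Sup

/-!
# SSF: the example

`Q`, the set of the finite sequences, is atomic, but it is not atomic over the zero sequence `c` of length `ω` and finitely
many elements of `Q`.
-/

set_option autoImplicit false

namespace SSF

open FirstOrder FirstOrder.Language

/-- The formula defining the set of the finite sequences. -/
noncomputable def PhiQ : LL.Formula (Fin 1) :=
  (atS (LHom.id LL) (.E none none 0 0) (Term.var 0) (Term.var 0)).not

private theorem mem_Sol (x : MM) : x ∈ Sol PhiQ MM ↔ ∃ t, kd x = some t := by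
  show PhiQ.Realize (fun _ => x) ↔ _
  unfold PhiQ
  rw [Formula.realize_not, atS_realize]
  show ¬ (kd x = none ∧ kd x = none ∧ True ∧ True ∧ agr 0 0 x x) ↔ _
  rcases kd x with _ | t
  · simp [agr]
  · simp

/-- The formula describing an `Eqv K`-class. -/
private theorem class_formula {n : ℕ} (K : ℕ) (v : Fin n → MM) : ∃ ψ : LL.Formula (Fin n),
    ∀ w : Fin n → MM, ψ.Realize w ↔ Eqv K v w := by
  classical
  have := Sy.bd_finite K
  let f : ({S : Sy // S.bd K} × Fin n × Fin n) ⊕ (Fin n × Fin n) → LL.Formula (Fin n) :=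
    Sum.elim (fun j => if rel j.1.1 (v j.2.1) (v j.2.2) then
        atS (LHom.id LL) j.1.1 (Term.var j.2.1) (Term.var j.2.2) else
        (atS (LHom.id LL) j.1.1 (Term.var j.2.1) (Term.var j.2.2)).not)
      (fun j => if v j.1 = v j.2 then (Term.var j.1).equal (Term.var j.2) else
        ((Term.var j.1).equal (Term.var j.2)).not)
  refine ⟨Formula.iInf f, fun w => ?_⟩
  rw [Formula.realize_iInf]
  have hl : ∀ j, (f (.inl j)).Realize w ↔ (rel j.1.1 (v j.2.1) (v j.2.2) ↔ rel j.1.1 (w j.2.1) (w j.2.2)) := by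
    intro j
    simp only [f, Sum.elim_inl]
    by_cases h : rel j.1.1 (v j.2.1) (v j.2.2)
    · rw [if_pos h, atS_realize]
      simp only [h, true_iff]
      exact Iff.rfl
    · rw [if_neg h, Formula.realize_not, atS_realize]
      simp only [h, false_iff]
      exact Iff.rfl
  have hr : ∀ j, (f (.inr j)).Realize w ↔ (v j.1 = v j.2 ↔ w j.1 = w j.2) := by
    intro j
    simp only [f, Sum.elim_inr]
    by_cases h : v j.1 = v j.2
    · rw [if_pos h, equal_realize]
      simp only [h, true_iff]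
      exact Iff.rfl
    · rw [if_neg h, Formula.realize_not, equal_realize]
      simp only [h, false_iff]
      exact Iff.rfl
  constructor
  · intro h
    exact ⟨fun S hS i j => (hl (⟨S, hS⟩, i, j)).1 (h _), fun i j => (hr (i, j)).1 (h _)⟩
  · rintro h (j | j)
    · exact (hl j).2 (h.1 j.1.1 j.1.2 _ _)
    · exact (hr j).2 (h.2 _ _)

private theorem lt_pow (m K : ℕ) (h : m ≤ K) : m < 2 ^ K :=
  lt_of_lt_of_le Nat.lt_two_pow_self (Nat.pow_le_pow_right (by norm_num) h)

private theorem exists_bound (x : MM) (t : ℕ) :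
    ∃ K, t ≤ K ∧ ∀ i < t, row x i ≤ K :=
  ⟨max t ((Finset.range t).sup (row x)), le_max_left _ _, fun _ hi =>
    le_trans (Finset.le_sup (Finset.mem_range.2 hi)) (le_max_right _ _)⟩

/-- The set of the finite sequences is atomic. -/
theorem atomic (n : ℕ) (v : Fin n → Sol PhiQ MM) : ∃ ψ : LL.Formula (Fin n),
    ψ.Realize (fun i => (v i : MM)) ∧ ∀ w : Fin n → Sol PhiQ MM, ψ.Realize (fun i => (w i : MM)) →
      ∀ θ : LL.Formula (Fin n), θ.Realize (fun i => (v i : MM)) → θ.Realize (fun i => (w i : MM)) := by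
  classical
  choose t ht using fun i => (mem_Sol _).1 (v i).2
  choose B hB hB' using fun i => exists_bound (v i : MM) (t i)
  let K₀ := Finset.univ.sup B
  have hK : ∀ i, B i ≤ K₀ := fun i => Finset.le_sup (Finset.mem_univ i)
  obtain ⟨ψ, hψ⟩ := class_formula K₀ (fun i => (v i : MM))
  refine ⟨ψ, (hψ _).2 (Eqv.refl _ _), fun w hw θ hθ => ?_⟩
  rw [hψ] at hw
  obtain ⟨K, hKθ⟩ := inv θ
  refine (hKθ _ _ ?_).1 hθ
  have hkw : ∀ i, kd (w i : MM) = some (t i) := by
    intro i
    refine (kd_of_eqv hw i ?_).1 (ht i)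
    rintro t' h
    rw [← Option.some_injective _ h]
    exact (hB i).trans (hK i)
  have hrow : ∀ i j : Fin n, ∀ s, s ≤ t i → s ≤ t j → agr s K₀ (v i : MM) (v j : MM) → ∀ l < s,
      row (v i : MM) l = row (v j : MM) l := by
    intro i j s hi hj hag l hl
    refine Nat.eq_of_testBit_eq fun b => ?_
    by_cases hb : b < K₀
    · exact hag l hl b hb
    · push Not at hb
      have h1 : row (v i : MM) l < 2 ^ b := lt_pow _ _ (((hB' i l (lt_of_lt_of_le hl hi)).trans (hK i)).trans hb)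
      have h2 : row (v j : MM) l < 2 ^ b := lt_pow _ _ (((hB' j l (lt_of_lt_of_le hl hj)).trans (hK j)).trans hb)
      rw [Nat.testBit_lt_two_pow h1, Nat.testBit_lt_two_pow h2]
  have hP : ∀ i j : Fin n, ∀ s, s ≤ t i → s ≤ t j → ((∀ l < s, row (v i : MM) l = row (v j : MM) l) ↔
      ∀ l < s, row (w i : MM) l = row (w j : MM) l) := by
    intro i j s hi hj
    have h1 := hw.1 (.P (t i) (t j) s) ⟨(hB i).trans (hK i), (hB j).trans (hK j), hi.trans ((hB i).trans (hK i))⟩ i j
    constructor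
    · intro h2
      exact (h1.1 ⟨ht i, ht j, hi, hj, h2⟩).2.2.2.2
    · intro h2
      exact (h1.2 ⟨hkw i, hkw j, hi, hj, h2⟩).2.2.2.2
  have hE : ∀ i j : Fin n, ∀ s r, s ≤ t i → s ≤ t j → r ≤ K₀ → (agr s r (v i : MM) (v j : MM) ↔
      agr s r (w i : MM) (w j : MM)) := by
    intro i j s r hi hj hr
    have hb : ∀ i, ∀ u, some (t i) = some u → u ≤ K₀ := by
      intro i u hu
      rw [← Option.some_injective _ hu]
      exact (hB i).trans (hK i)
    have h1 := hw.1 (.E (some (t i)) (some (t j)) s r) ⟨hb i, hb j, hi.trans ((hB i).trans (hK i)), hr⟩ i j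
    constructor
    · intro h2
      exact (h1.1 ⟨ht i, ht j, hi, hj, h2⟩).2.2.2.2
    · intro h2
      exact (h1.2 ⟨hkw i, hkw j, hi, hj, h2⟩).2.2.2.2
  refine ⟨?_, hw.2⟩
  rintro S - i j
  rw [rel_iff, rel_iff]
  cases S with
  | P u u' s =>
    show (_ ∧ _ ∧ _ ∧ _ ∧ _) ↔ (_ ∧ _ ∧ _ ∧ _ ∧ _)
    rw [ht i, ht j, hkw i, hkw j]
    constructor
    · rintro ⟨h1, h2, h3, h4, h5⟩
      obtain rfl := Option.some_injective _ h1
      obtain rfl := Option.some_injective _ h2
      exact ⟨rfl, rfl, h3, h4, (hP i j s h3 h4).1 h5⟩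
    · rintro ⟨h1, h2, h3, h4, h5⟩
      obtain rfl := Option.some_injective _ h1
      obtain rfl := Option.some_injective _ h2
      exact ⟨rfl, rfl, h3, h4, (hP i j s h3 h4).2 h5⟩
  | E κ κ' s r =>
    show (_ ∧ _ ∧ _ ∧ _ ∧ _) ↔ (_ ∧ _ ∧ _ ∧ _ ∧ _)
    rw [ht i, ht j, hkw i, hkw j]
    have key : s ≤ t i → s ≤ t j → (agr s r (v i : MM) (v j : MM) ↔ agr s r (w i : MM) (w j : MM)) := by
      intro hi hj
      by_cases hr : r ≤ K₀
      · exact hE i j s r hi hj hr
      · push Not at hr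
        constructor
        · intro h
          have h1 := (hP i j s hi hj).1 (hrow i j s hi hj fun l hl b hb => h l hl b (hb.trans hr))
          exact fun l hl b _ => by rw [h1 l hl]
        · intro h
          have h1 := (hE i j s K₀ hi hj le_rfl).2 fun l hl b hb => h l hl b (hb.trans hr)
          have h2 := hrow i j s hi hj h1
          exact fun l hl b _ => by rw [h2 l hl]
    constructor
    · rintro ⟨rfl, rfl, h3, h4, h5⟩
      exact ⟨rfl, rfl, h3, h4, (key h3 h4).1 h5⟩
    · rintro ⟨rfl, rfl, h3, h4, h5⟩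
      exact ⟨rfl, rfl, h3, h4, (key h3 h4).2 h5⟩

/-- the zero sequence of length `t + 1` -/
private def dd (t : ℕ) : MM := .inl (List.replicate (t + 1) 0)

/-- the sequence of length `t + 1` with last entry `2 ^ m` -/
private def yy (t m : ℕ) : MM := .inl (List.ofFn fun i : Fin (t + 1) => if (i : ℕ) < t then 0 else 2 ^ m)

private theorem kd_dd (t : ℕ) : kd (dd t) = some (t + 1) := by
  show some (List.replicate (t + 1) 0).length = _
  rw [List.length_replicate]

private theorem kd_yy (t m : ℕ) : kd (yy t m) = some (t + 1) := by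
  show some (List.ofFn fun i : Fin (t + 1) => if (i : ℕ) < t then 0 else 2 ^ m).length = _
  rw [List.length_ofFn]

private theorem row_dd (t i : ℕ) : row (dd t) i = 0 := by
  show (List.replicate (t + 1) 0).getD i 0 = 0
  rw [List.getD_eq_getElem?_getD, List.getElem?_replicate]
  split_ifs <;> rfl

private theorem row_yy (t m : ℕ) {i : ℕ} (hi : i < t + 1) : row (yy t m) i = if i < t then 0 else 2 ^ m :=
  row_ofFn (t + 1) (fun i => if i < t then 0 else 2 ^ m) hi

private theorem bit_yy (t m : ℕ) {i j : ℕ} (hi : i < t + 1) (hj : j < m) : (row (yy t m) i).testBit j = false := by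
  rw [row_yy t m hi]
  split_ifs
  · exact Nat.zero_testBit j
  · rw [Nat.testBit_two_pow]
    simp [hj.ne']

/-- the main computation -/
private theorem swap_one {t m K : ℕ} (hK : K ≤ m) {S : Sy} (hS : S.bd K) {z : MM}
    (hz : ∀ u, kd z = some u → u ≤ t) : (S.Holds (dd t) z ↔ S.Holds (yy t m) z) ∧
      (S.Holds z (dd t) ↔ S.Holds z (yy t m)) := by
  have hE : ∀ κ κ' s r, r ≤ m → (Sy.Holds (.E κ κ' s r) (dd t) z ↔ Sy.Holds (.E κ κ' s r) (yy t m) z) := by
    intro κ κ' s r hr
    have key : s ≤ t + 1 → (agr s r (dd t) z ↔ agr s r (yy t m) z) := by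
      intro hs
      refine forall_congr' fun i => forall_congr' fun hi => forall_congr' fun j => forall_congr' fun hj => ?_
      rw [bit_yy t m (lt_of_lt_of_le hi hs) (lt_of_lt_of_le hj hr), row_dd, Nat.zero_testBit]
    constructor
    · rintro ⟨h1, h2, h3, h4, h5⟩
      have h6 := h3
      rw [← h1, kd_dd] at h6
      exact ⟨by rw [kd_yy, ← kd_dd, h1], h2, h3, h4, (key h6).1 h5⟩
    · rintro ⟨h1, h2, h3, h4, h5⟩
      have h6 := h3
      rw [← h1, kd_yy] at h6
      exact ⟨by rw [kd_dd, ← kd_yy t m, h1], h2, h3, h4, (key h6).2 h5⟩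
  have hP : ∀ u u' s, (Sy.Holds (.P u u' s) (dd t) z ↔ Sy.Holds (.P u u' s) (yy t m) z) := by
    intro u u' s
    have key : s ≤ t → ∀ i < s, row (dd t) i = row (yy t m) i := by
      intro hs i hi
      rw [row_dd, row_yy t m (by omega), if_pos (lt_of_lt_of_le hi hs)]
    constructor
    · rintro ⟨h1, h2, h3, h4, h5⟩
      exact ⟨by rw [kd_yy, ← kd_dd, h1], h2, h3, h4, fun i hi => (key (h4.trans (hz _ h2)) i hi).symm.trans (h5 i hi)⟩
    · rintro ⟨h1, h2, h3, h4, h5⟩
      exact ⟨by rw [kd_dd, ← kd_yy t m, h1], h2, h3, h4, fun i hi => (key (h4.trans (hz _ h2)) i hi).trans (h5 i hi)⟩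
  have hsw : ∀ (S : Sy), S.bd K → (S.Holds (dd t) z ↔ S.Holds (yy t m) z) := by
    intro S hS
    cases S with
    | E κ κ' s r => exact hE κ κ' s r (hS.2.2.2.trans hK)
    | P u u' s => exact hP u u' s
  refine ⟨hsw S hS, ?_⟩
  cases S with
  | E κ κ' s r =>
    have h := hsw (.E κ' κ s r) ⟨hS.2.1, hS.1, hS.2.2⟩
    have e : ∀ w : MM, Sy.Holds (.E κ κ' s r) z w ↔ Sy.Holds (.E κ' κ s r) w z := fun w =>
      ⟨fun ⟨h1, h2, h3, h4, h5⟩ => ⟨h2, h1, h4, h3, fun i hi j hj => (h5 i hi j hj).symm⟩,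
        fun ⟨h1, h2, h3, h4, h5⟩ => ⟨h2, h1, h4, h3, fun i hi j hj => (h5 i hi j hj).symm⟩⟩
    rw [e, e]
    exact h
  | P u u' s =>
    have h := hsw (.P u' u s) ⟨hS.2.1, hS.1, hS.2.2⟩
    have e : ∀ w : MM, Sy.Holds (.P u u' s) z w ↔ Sy.Holds (.P u' u s) w z := fun w =>
      ⟨fun ⟨h1, h2, h3, h4, h5⟩ => ⟨h2, h1, h4, h3, fun i hi => (h5 i hi).symm⟩,
        fun ⟨h1, h2, h3, h4, h5⟩ => ⟨h2, h1, h4, h3, fun i hi => (h5 i hi).symm⟩⟩
    rw [e, e]
    exact h

private theorem swap_two {t m : ℕ} (S : Sy) : S.Holds (dd t) (dd t) ↔ S.Holds (yy t m) (yy t m) := by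
  have hk : kd (dd t) = kd (yy t m) := by rw [kd_dd, kd_yy]
  cases S with
  | E κ κ' s r =>
    constructor
    · rintro ⟨h1, h2, h3, h4, -⟩
      exact ⟨hk ▸ h1, hk ▸ h2, h3, h4, fun _ _ _ _ => rfl⟩
    · rintro ⟨h1, h2, h3, h4, -⟩
      exact ⟨hk.trans h1, hk.trans h2, h3, h4, fun _ _ _ _ => rfl⟩
  | P u u' s =>
    constructor
    · rintro ⟨h1, h2, h3, h4, -⟩
      exact ⟨hk ▸ h1, hk ▸ h2, h3, h4, fun _ _ => rfl⟩
    · rintro ⟨h1, h2, h3, h4, -⟩
      exact ⟨hk.trans h1, hk.trans h2, h3, h4, fun _ _ => rfl⟩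

/-- The set of the finite sequences is not atomic over `c` and finitely many elements. -/
theorem bad : ∃ c : Fin 1 → MM, ∀ (k : ℕ) (a : Fin k → Sol PhiQ MM), ∃ d : Fin 1 → Sol PhiQ MM,
    ∀ ψ : LL.Formula ((Fin 1 ⊕ Fin k) ⊕ Fin 1),
      ψ.Realize (Sum.elim (Sum.elim c fun i => (a i : MM)) fun i => (d i : MM)) →
        ∃ y : Fin 1 → Sol PhiQ MM,
          ψ.Realize (Sum.elim (Sum.elim c fun i => (a i : MM)) fun i => (y i : MM)) ∧
          ∃ θ : LL.Formula ((Fin 1 ⊕ Fin k) ⊕ Fin 1),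
            θ.Realize (Sum.elim (Sum.elim c fun i => (a i : MM)) fun i => (d i : MM)) ∧
            ¬ θ.Realize (Sum.elim (Sum.elim c fun i => (a i : MM)) fun i => (y i : MM)) := by
  classical
  refine ⟨fun _ => .inr 0, fun k a => ?_⟩
  choose t ht using fun i => (mem_Sol _).1 (a i).2
  let T := Finset.univ.sup t
  have hT : ∀ i, t i ≤ T := fun i => Finset.le_sup (Finset.mem_univ i)
  refine ⟨fun _ => ⟨dd T, (mem_Sol _).2 ⟨_, kd_dd T⟩⟩, fun ψ hψ => ?_⟩
  obtain ⟨K, hK⟩ := inv ψ
  refine ⟨fun _ => ⟨yy T K, (mem_Sol _).2 ⟨_, kd_yy T K⟩⟩, ?_, ?_⟩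
  · refine (hK _ _ ?_).1 hψ
    have hz : ∀ i : Fin 1 ⊕ Fin k, ∀ u, kd (Sum.elim (fun _ : Fin 1 => (.inr 0 : MM)) (fun i => (a i : MM)) i) = some u →
        u ≤ T := by
      rintro (i | i) u hu
      · exact absurd hu (by simp [kd])
      · have h1 := (ht i).symm.trans hu
        rw [← Option.some_injective _ h1]
        exact hT i
    have hne : ∀ i : Fin 1 ⊕ Fin k, ∀ x : MM, kd x = some (T + 1) →
        Sum.elim (fun _ : Fin 1 => (.inr 0 : MM)) (fun i => (a i : MM)) i ≠ x := by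
      rintro i x hx rfl
      have := hz i _ hx
      omega
    constructor
    · rintro S hS (i | i) (j | j)
      · exact Iff.rfl
      · exact (swap_one le_rfl hS (hz i)).2
      · exact (swap_one le_rfl hS (hz j)).1
      · exact swap_two S
    · rintro (i | i) (j | j)
      · exact Iff.rfl
      · exact iff_of_false (hne i _ (kd_dd T)) (hne i _ (kd_yy T K))
      · exact iff_of_false (hne j _ (kd_dd T)).symm (hne j _ (kd_yy T K)).symm
      · exact ⟨fun _ => rfl, fun _ => rfl⟩
  · refine ⟨atS (LHom.id LL) (.E (some (T + 1)) none (T + 1) (K + 1)) (Term.var (.inr 0)) (Term.var (.inl (.inl 0))),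
      ?_, ?_⟩
    · rw [atS_realize]
      show Sy.Holds (.E (some (T + 1)) none (T + 1) (K + 1)) (dd T) (.inr 0)
      refine ⟨kd_dd T, rfl, le_refl _, trivial, fun i _ j _ => ?_⟩
      rw [row_dd]
      rfl
    · rw [atS_realize]
      show ¬ Sy.Holds (.E (some (T + 1)) none (T + 1) (K + 1)) (yy T K) (.inr 0)
      rintro ⟨-, -, -, -, h⟩
      have h1 := h T (Nat.lt_succ_self T) K (Nat.lt_succ_self K)
      rw [row_yy T K (Nat.lt_succ_self T), if_neg (lt_irrefl T), Nat.testBit_two_pow_self] at h1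
      have h2 : (row (.inr 0 : MM) T).testBit K = false := by
        show ((0 : ℕ →₀ ℕ) T).testBit K = false
        simp
      rw [h2] at h1
      exact absurd h1 (by simp)

theorem countable_MM : Countable MM := inferInstance

theorem card_LL : LL.card ≤ Cardinal.aleph0 := by
  have h1 : Countable Sy := by
    have h : Function.Injective (fun S : Sy => (match S with
      | .E κ κ' s r => Sum.inl (κ, κ', s, r)
      | .P t t' s => Sum.inr (t, t', s) : (Option ℕ × Option ℕ × ℕ × ℕ) ⊕ (ℕ × ℕ × ℕ))) := by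
      intro S S' h
      cases S <;> cases S' <;> simp_all
    exact h.countable
  have h2 : ∀ n, Countable (LL.Relations n) := by
    intro n
    have hf : Function.Injective (fun R : RelF n => (match R with | .of S => S : Sy)) := by
      intro R R' h
      cases R with
      | of S => cases R' with
        | of S' => exact congrArg _ h
    exact hf.countable
  have h3 : ∀ n, Countable (LL.Functions n) := fun n => (inferInstance : Countable Empty)
  rw [Language.card, Cardinal.mk_le_aleph0_iff]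
  unfold Language.Symbols
  infer_instance

end SSF
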