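import Pool.Agent.SSF.Det

/-!
# SSF: types over a model are approximated by tuples of the example
-/

set_option autoImplicit false

namespace SSF

open FirstOrder FirstOrder.Language

section
variable {N : Type} [LL.Structure N]

/-- The elements of the model and the variables, as terms with parameters. -/
noncomputable def tm {n : ℕ} : N ⊕ Fin n → (LL[[N]]).Term (Fin n)
  | .inl a => (LL.con a).term
  | .inr i => Term.var i

theorem tm_realize {n : ℕ} (x : Fin n → N) (b : N ⊕ Fin n) : (tm b).realize x = Sum.elim id x b := by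
  cases b with
  | inl a =>
    show (LL.con a).term.realize x = a
    rw [Term.realize_constants]
    rfl
  | inr i => rfl

/-- The relations of a type over `N`. -/
def R {n : ℕ} (p : ((LL[[N]]).completeTheory N).CompleteType (Fin n)) (S : Sy) (b c : N ⊕ Fin n) : Prop :=
  Mem p (atS (LL.lhomWithConstants N) S (tm b) (tm c))

/-- The equalities of a type over `N`. -/
def Q {n : ℕ} (p : ((LL[[N]]).completeTheory N).CompleteType (Fin n)) (b c : N ⊕ Fin n) : Prop :=
  Mem p ((tm b).equal (tm c))

/-- Tuples of a model are approximated by tuples of the example. -/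
theorem model_approx (hN : N ⊨ LL.completeTheory MM) {ι : Type} [Finite ι] (v : ι → N) (K : ℕ) :
    ∃ x : ι → MM, (∀ S : Sy, S.bd K → ∀ i j, (rel S (x i) (x j) ↔ rel S (v i) (v j))) ∧
      ∀ i j, (x i = x j ↔ v i = v j) := by
  have := Sy.bd_finite K
  obtain ⟨x, hx⟩ := approxN hN (Sum.elim (fun j : {S : Sy // S.bd K} × ι × ι =>
    atS (LHom.id LL) j.1.1 (Term.var j.2.1) (Term.var j.2.2)) (fun j : ι × ι =>
      (Term.var j.1).equal (Term.var j.2))) v
  refine ⟨x, fun S hS i j => ?_, fun i j => ?_⟩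
  · have h1 := hx (.inl (⟨S, hS⟩, i, j))
    simp only [Sum.elim_inl, atS_realize] at h1
    exact h1
  · have h1 := hx (.inr (i, j))
    simp only [Sum.elim_inr, equal_realize] at h1
    exact h1

/-- Types over a model are approximated by tuples of the model. -/
theorem type_approx {n : ℕ} (p : ((LL[[N]]).completeTheory N).CompleteType (Fin n)) {ι : Type} [Finite ι]
    (b : ι → N ⊕ Fin n) (K : ℕ) : ∃ x : Fin n → N, (∀ S : Sy, S.bd K → ∀ i j,
      (rel S (Sum.elim id x (b i)) (Sum.elim id x (b j)) ↔ R p S (b i) (b j))) ∧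
      ∀ i j, (Sum.elim id x (b i) = Sum.elim id x (b j) ↔ Q p (b i) (b j)) := by
  have := Sy.bd_finite K
  obtain ⟨x, hx⟩ := approx p (Sum.elim (fun j : {S : Sy // S.bd K} × ι × ι =>
    atS (LL.lhomWithConstants N) j.1.1 (tm (b j.2.1)) (tm (b j.2.2))) (fun j : ι × ι =>
      (tm (b j.1)).equal (tm (b j.2))))
  refine ⟨x, fun S hS i j => ?_, fun i j => ?_⟩
  · have h1 := hx (.inl (⟨S, hS⟩, i, j))
    simp only [Sum.elim_inl, atS_realize, tm_realize] at h1
    exact h1
  · have h1 := hx (.inr (i, j))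
    simp only [Sum.elim_inr, equal_realize, tm_realize] at h1
    exact h1

/-- Types over a model are approximated by tuples of the example. -/
theorem type_approx' (hN : N ⊨ LL.completeTheory MM) {n : ℕ}
    (p : ((LL[[N]]).completeTheory N).CompleteType (Fin n)) {ι : Type} [Finite ι] (b : ι → N ⊕ Fin n) (K : ℕ) :
    ∃ x : ι → MM, (∀ S : Sy, S.bd K → ∀ i j, (S.Holds (x i) (x j) ↔ R p S (b i) (b j))) ∧
      ∀ i j, (x i = x j ↔ Q p (b i) (b j)) := by
  obtain ⟨y, hy, hy'⟩ := type_approx p b K
  obtain ⟨x, hx, hx'⟩ := model_approx hN (fun i => Sum.elim id y (b i)) K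
  exact ⟨x, fun S hS i j => (hx S hS i j).trans (hy S hS i j), fun i j => (hx' i j).trans (hy' i j)⟩

theorem R_inl {n : ℕ} (p : ((LL[[N]]).completeTheory N).CompleteType (Fin n)) (S : Sy) (a b : N) :
    R p S (.inl a) (.inl b) ↔ rel S a b := by
  obtain ⟨K, hK⟩ := S.exists_bd
  obtain ⟨x, hx, -⟩ := type_approx p (fun i : Bool => if i then .inl a else .inl b) K
  exact (hx S hK true false).symm

theorem Q_inl {n : ℕ} (p : ((LL[[N]]).completeTheory N).CompleteType (Fin n)) (a b : N) :
    Q p (.inl a) (.inl b) ↔ a = b := by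
  obtain ⟨x, -, hx⟩ := type_approx p (fun i : Bool => if i then .inl a else .inl b) 0
  exact (hx true false).symm

/-- The terms with parameters decide all formulas with parameters. -/
theorem hexp (hN : N ⊨ LL.completeTheory MM) {n : ℕ} (ψ : (LL[[N]]).Formula (Fin n)) :
    ∃ (s : Finset (N ⊕ Fin n)) (K : ℕ), ∀ x y : Fin n → N,
      Eqv K (fun b : s => (tm (b : N ⊕ Fin n)).realize x) (fun b : s => (tm (b : N ⊕ Fin n)).realize y) →
        (ψ.Realize x ↔ ψ.Realize y) := by
  classical
  have h1 : ∀ x : Fin n → N, Formula.Realize (BoundedFormula.constantsVarsEquiv ψ : LL.Formula (N ⊕ Fin n))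
      (Sum.elim (fun a => a) x) ↔ ψ.Realize x := by
    intro x
    exact BoundedFormula.realize_constantsVarsEquiv (L := LL) (α := N) (M := N) (φ := ψ) (v := x) (xs := default)
  obtain ⟨φ, hφ⟩ : ∃ φ : LL.Formula (N ⊕ Fin n), ∀ x : Fin n → N, φ.Realize (Sum.elim id x) ↔ ψ.Realize x :=
    ⟨_, h1⟩
  have h2 : ∀ v : N ⊕ Fin n → N, (φ.restrictFreeVar id).Realize (fun i : φ.freeVarFinset => v i) default ↔
      φ.Realize v := fun v => BoundedFormula.realize_restrictFreeVar (φ := φ) (f := id)
        (v := fun a : φ.freeVarFinset => v a) v (fun _ => rfl)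
  obtain ⟨K, hK⟩ := inv_model hN (φ.restrictFreeVar id : LL.Formula φ.freeVarFinset)
  refine ⟨φ.freeVarFinset, K, fun x y hxy => ?_⟩
  simp only [tm_realize] at hxy
  exact (hφ x).symm.trans ((h2 _).symm.trans ((hK _ _ hxy).trans ((h2 _).trans (hφ y))))

/-- A type over a model is determined by its atomic formulas. -/
theorem type_ext (hN : N ⊨ LL.completeTheory MM) {n : ℕ}
    (p q : ((LL[[N]]).completeTheory N).CompleteType (Fin n))
    (hS : ∀ (S : Sy) (b c : N ⊕ Fin n), R p S b c ↔ R q S b c)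
    (hE : ∀ b c : N ⊕ Fin n, Q p b c ↔ Q q b c) : p = q :=
  detG (LL.lhomWithConstants N) tm (hexp hN) p q hS hE

end

end SSF
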