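import Mathlib

/-!
# SSF: smallness does not suffice for superstable theories (MP_c7a31e_lc). Definitions

Part 1 is used in the statement of the hand-in, part 2 contains the example.
-/

set_option autoImplicit false

namespace SSF

open FirstOrder FirstOrder.Language

/-! ### Part 1 -/

/-- `Th(M)` is superstable: over every model `N` of `Th(M)` there are at most `max |N| 2^ℵ₀`
complete `n`-types, for every `n`. -/
def Superstable (L : FirstOrder.Language.{0, 0}) (M : Type) [L.Structure M] : Prop :=
  ∀ (N : Type) [L.Structure N], N ⊨ L.completeTheory M → ∀ n : ℕ,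
    Cardinal.mk ((L[[N]].completeTheory N).CompleteType (Fin n)) ≤
      max (Cardinal.mk N) Cardinal.continuum

/-- `Th(M)` is small: it has countably many complete `n`-types over the empty set, for every `n`. -/
def Small (L : FirstOrder.Language.{0, 0}) (M : Type) [L.Structure M] : Prop :=
  ∀ n : ℕ, Countable ((L.completeTheory M).CompleteType (Fin n))

/-- The set of solutions in `M` of a formula in one variable. -/
def Sol {L : FirstOrder.Language.{0, 0}} (Φ : L.Formula (Fin 1)) (M : Type) [L.Structure M] : Set M :=
  {x | Φ.Realize (fun _ => x)}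

/-! ### Part 2: the example -/

/-- The universe: finite sequences, and finitely supported infinite sequences, of natural numbers. -/
abbrev MM := List ℕ ⊕ (ℕ →₀ ℕ)

/-- The kind of an element: the length, `none` for the infinite sequences. -/
def kd : MM → Option ℕ
  | .inl l => some l.length
  | .inr _ => none

/-- The entries (`0` after the end). -/
def row : MM → ℕ → ℕ
  | .inl l, i => l.getD i 0
  | .inr f, i => f i

/-- `s` is at most the length. -/
def leK (s : ℕ) : Option ℕ → Prop
  | none => True
  | some t => s ≤ t

/-- The first `s` entries agree in the first `r` binary digits. -/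
def agr (s r : ℕ) (x y : MM) : Prop :=
  ∀ i < s, ∀ j < r, (row x i).testBit j = (row y i).testBit j

/-- The symbols of the language (all binary). -/
inductive Sy : Type
  | E (κ κ' : Option ℕ) (s r : ℕ) : Sy
  | P (t t' s : ℕ) : Sy

/-- The relations of the example. -/
def Sy.Holds : Sy → MM → MM → Prop
  | .E κ κ' s r, x, y => kd x = κ ∧ kd y = κ' ∧ leK s κ ∧ leK s κ' ∧ agr s r x y
  | .P t t' s, x, y => kd x = some t ∧ kd y = some t' ∧ s ≤ t ∧ s ≤ t' ∧ ∀ i < s, row x i = row y i

/-- The relation symbols, by arity. -/
inductive RelF : ℕ → Type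
  | of : Sy → RelF 2

/-- The language. -/
def LL : FirstOrder.Language.{0, 0} := ⟨fun _ => Empty, RelF⟩

instance : LL.Structure MM where
  funMap := fun f _ => f.elim
  RelMap := fun {_} R v =>
    match R, v with
    | RelF.of S, v => S.Holds (v 0) (v 1)

section
variable {N : Type} [LL.Structure N]

/-- The relation `S` of a structure. -/
def rel (S : Sy) (a b : N) : Prop := Structure.RelMap (L := LL) (M := N) (n := 2) (RelF.of S : RelF 2) ![a, b]

/-- The symbols with parameters at most `K`. -/
def Sy.bd (K : ℕ) : Sy → Prop
  | .E κ κ' s r => (∀ t, κ = some t → t ≤ K) ∧ (∀ t, κ' = some t → t ≤ K) ∧ s ≤ K ∧ r ≤ K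
  | .P t t' s => t ≤ K ∧ t' ≤ K ∧ s ≤ K

/-- `x` and `y` satisfy the same atomic formulas with parameters at most `K`. -/
def Eqv {ι : Type} (K : ℕ) (x y : ι → N) : Prop :=
  (∀ S : Sy, S.bd K → ∀ i j, rel S (x i) (x j) ↔ rel S (y i) (y j)) ∧ ∀ i j, x i = x j ↔ y i = y j

end

theorem rel_iff (S : Sy) (a b : MM) : rel S a b ↔ S.Holds a b := Iff.rfl

/-- The atomic formula `S(u, v)`. -/
noncomputable def atS {L' : FirstOrder.Language.{0, 0}} {α : Type} (e : LL →ᴸ L') (S : Sy) (u v : L'.Term α) :
    L'.Formula α :=
  (e.onRelation (n := 2) (RelF.of S)).formula ![u, v]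

end SSF
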