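import Pool.Agent.SSF.Inv

/-!
# SSF: complete types are determined by deciding sets of formulas
-/

set_option autoImplicit false

namespace SSF

open FirstOrder FirstOrder.Language

section
variable {L' : FirstOrder.Language.{0, 0}} {H : Type} [L'.Structure H] {ι : Type} [Finite ι]

/-- Universal statements transfer to models of the complete theory. -/
theorem transfer {N : Type} [L'.Structure N] (hN : N ⊨ L'.completeTheory H) (φ : L'.Formula ι)
    (h : ∀ v : ι → H, φ.Realize v) (v : ι → N) : φ.Realize v := by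
  have h1 : ∀ (K : Type) [L'.Structure K],
      K ⊨ (((φ.relabel Sum.inr : L'.Formula (Empty ⊕ ι)).iAlls ι : L'.Formula Empty) : L'.Sentence) ↔
        ∀ w : ι → K, φ.Realize w := by
    intro K _
    show Formula.Realize _ _ ↔ _
    rw [Formula.realize_iAlls]
    refine forall_congr' fun w => ?_
    rw [Formula.realize_relabel]
    exact Iff.rfl
  exact (h1 N).1 ((realize_iff_of_model_completeTheory H N _).2 ((h1 H).2 h)) v

/-- A tuple of a model of the complete theory is approximated by tuples of `H`. -/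
theorem approxN {N : Type} [L'.Structure N] (hN : N ⊨ L'.completeTheory H) {J : Type} [Finite J]
    (δ : J → L'.Formula ι) (v : ι → N) : ∃ x : ι → H, ∀ j, (δ j).Realize x ↔ (δ j).Realize v := by
  classical
  by_contra hcon
  push Not at hcon
  let χ : L'.Formula ι := Formula.iInf fun j => if (δ j).Realize v then δ j else (δ j).not
  have h1 : ∀ x : ι → H, χ.not.Realize x := by
    intro x
    rw [Formula.realize_not, Formula.realize_iInf]
    intro h2
    obtain ⟨j, hj⟩ := hcon x
    have h3 := h2 j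
    by_cases hv : (δ j).Realize v
    · rw [if_pos hv] at h3
      rcases hj with ⟨_, h5⟩ | ⟨h4, _⟩
      · exact h5 hv
      · exact h4 h3
    · rw [if_neg hv, Formula.realize_not] at h3
      rcases hj with ⟨h4, _⟩ | ⟨_, h5⟩
      · exact h3 h4
      · exact hv h5
  have h2 := transfer hN χ.not h1 v
  rw [Formula.realize_not, Formula.realize_iInf] at h2
  refine h2 fun j => ?_
  by_cases hv : (δ j).Realize v
  · rw [if_pos hv]
    exact hv
  · rw [if_neg hv, Formula.realize_not]
    exact hv

/-- The formula `φ` belongs to the type `p`. -/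
def Mem (p : (L'.completeTheory H).CompleteType ι) (φ : L'.Formula ι) : Prop := Formula.equivSentence φ ∈ p

/-- A complete type is approximated by tuples of `H`. -/
theorem approx (p : (L'.completeTheory H).CompleteType ι) {J : Type} [Finite J]
    (δ : J → L'.Formula ι) : ∃ x : ι → H, ∀ j, (δ j).Realize x ↔ Mem p (δ j) := by
  obtain ⟨N, v, hv⟩ := Theory.exists_modelType_is_realized_in (L'.completeTheory H) p
  obtain ⟨x, hx⟩ := approxN (N := N) N.is_model δ v
  refine ⟨x, fun j => ?_⟩
  rw [hx j, Mem, ← hv, Theory.CompleteType.formula_mem_typeOf]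

/-- Two complete types which agree on a set of formulas deciding all formulas are equal. -/
theorem det (p q : (L'.completeTheory H).CompleteType ι) (Δ : Set (L'.Formula ι))
    (hΔ : ∀ ψ : L'.Formula ι, ∃ (J : Type) (_ : Finite J) (δ : J → L'.Formula ι), (∀ j, δ j ∈ Δ) ∧
      ∀ x y : ι → H, (∀ j, (δ j).Realize x ↔ (δ j).Realize y) → (ψ.Realize x ↔ ψ.Realize y))
    (hpq : ∀ δ ∈ Δ, (Mem p δ ↔ Mem q δ)) : p = q := by
  refine SetLike.ext fun φ => ?_
  obtain ⟨ψ, rfl⟩ := Formula.equivSentence.surjective φ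
  obtain ⟨J, _, δ, hδ, h⟩ := hΔ ψ
  obtain ⟨x, hx⟩ := approx p (fun o : Option J => o.elim ψ δ)
  obtain ⟨y, hy⟩ := approx q (fun o : Option J => o.elim ψ δ)
  have h1 : ψ.Realize x ↔ ψ.Realize y := by
    refine h x y fun j => ?_
    exact (hx (some j)).trans ((hpq _ (hδ j)).trans (hy (some j)).symm)
  exact (hx none).symm.trans (h1.trans (hy none))

end

/-- The symbols with bounded parameters are finite in number. -/
theorem Sy.bd_finite (K : ℕ) : Finite {S : Sy // S.bd K} := by
  classical
  let f : (Option (Fin (K + 1)) × Option (Fin (K + 1)) × Fin (K + 1) × Fin (K + 1)) ⊕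
      (Fin (K + 1) × Fin (K + 1) × Fin (K + 1)) → Sy
    | .inl (a, b, s, r) => .E (a.map Fin.val) (b.map Fin.val) s r
    | .inr (t, t', s) => .P t t' s
  refine ((Set.finite_range f).subset ?_).to_subtype
  intro S hS
  cases S with
  | E κ κ' s r =>
    obtain ⟨h1, h2, h3, h4⟩ := hS
    have hk : ∀ κ : Option ℕ, (∀ t, κ = some t → t ≤ K) → ∃ a : Option (Fin (K + 1)), a.map Fin.val = κ := by
      rintro (_ | t) h
      · exact ⟨none, rfl⟩
      · exact ⟨some ⟨t, Nat.lt_succ_of_le (h t rfl)⟩, rfl⟩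
    obtain ⟨a, ha⟩ := hk κ h1
    obtain ⟨b, hb⟩ := hk κ' h2
    refine ⟨.inl (a, b, ⟨s, Nat.lt_succ_of_le h3⟩, ⟨r, Nat.lt_succ_of_le h4⟩), ?_⟩
    simp only [f, ha, hb]
  | P t t' s =>
    obtain ⟨h1, h2, h3⟩ := hS
    exact ⟨.inr (⟨t, Nat.lt_succ_of_le h1⟩, ⟨t', Nat.lt_succ_of_le h2⟩, ⟨s, Nat.lt_succ_of_le h3⟩), rfl⟩

section
variable {L' : FirstOrder.Language.{0, 0}} {H : Type} [L'.Structure H] [LL.Structure H] {α : Type}

theorem atS_realize (e : LL →ᴸ L') [e.IsExpansionOn H] (S : Sy) (u v : L'.Term α) (x : α → H) :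
    (atS e S u v).Realize x ↔ rel S (u.realize x) (v.realize x) := by
  unfold atS rel
  rw [Formula.realize_rel, ← e.map_onRelation (M := H)]
  refine iff_of_eq (congrArg _ ?_)
  funext i
  fin_cases i <;> rfl

omit [LL.Structure H] in
theorem equal_realize (u v : L'.Term α) (x : α → H) :
    (u.equal v).Realize x ↔ u.realize x = v.realize x := Formula.realize_equal

/-- The version of `det` for expansions by constants. -/
theorem detG [Finite α] (e : LL →ᴸ L') [e.IsExpansionOn H] {β : Type} (τ : β → L'.Term α)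
    (hexp : ∀ ψ : L'.Formula α, ∃ (s : Finset β) (K : ℕ), ∀ x y : α → H,
      Eqv K (fun b : s => (τ b).realize x) (fun b : s => (τ b).realize y) →
        (ψ.Realize x ↔ ψ.Realize y))
    (p q : (L'.completeTheory H).CompleteType α)
    (hS : ∀ (S : Sy) (b c : β), Mem p (atS e S (τ b) (τ c)) ↔ Mem q (atS e S (τ b) (τ c)))
    (hE : ∀ b c : β, Mem p ((τ b).equal (τ c)) ↔ Mem q ((τ b).equal (τ c))) : p = q := by
  refine det p q ({φ | ∃ S b c, φ = atS e S (τ b) (τ c)} ∪ {φ | ∃ b c, φ = (τ b).equal (τ c)}) ?_ ?_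
  · intro ψ
    obtain ⟨s, K, h⟩ := hexp ψ
    have := Sy.bd_finite K
    refine ⟨({S : Sy // S.bd K} × s × s) ⊕ (s × s), inferInstance,
      Sum.elim (fun j => atS e j.1.1 (τ j.2.1) (τ j.2.2)) (fun j => (τ j.1).equal (τ j.2)), ?_, ?_⟩
    · rintro (j | j)
      · exact Or.inl ⟨_, _, _, rfl⟩
      · exact Or.inr ⟨_, _, rfl⟩
    · intro x y hxy
      refine h x y ⟨fun S hSK i j => ?_, fun i j => ?_⟩
      · have h1 := hxy (.inl (⟨S, hSK⟩, i, j))
        simp only [Sum.elim_inl, atS_realize] at h1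
        exact h1
      · have h1 := hxy (.inr (i, j))
        simp only [Sum.elim_inr, equal_realize] at h1
        exact h1
  · rintro δ (⟨S, b, c, rfl⟩ | ⟨b, c, rfl⟩)
    · exact hS S b c
    · exact hE b c

end

/-- The transfer of `inv` to the models of the theory. -/
theorem inv_model {N : Type} [LL.Structure N] (hN : N ⊨ LL.completeTheory MM) {ι : Type} [Finite ι]
    (φ : LL.Formula ι) : ∃ K : ℕ, ∀ v w : ι → N, Eqv K v w → (φ.Realize v ↔ φ.Realize w) := by
  obtain ⟨K, hK⟩ := inv φ
  refine ⟨K, fun v w h => ?_⟩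
  have := Sy.bd_finite K
  let δ : Option (({S : Sy // S.bd K} × ι × ι) ⊕ (ι × ι)) → LL.Formula ι := fun o => o.elim φ
    (Sum.elim (fun j => atS (LHom.id LL) j.1.1 (Term.var j.2.1) (Term.var j.2.2))
      (fun j => (Term.var j.1).equal (Term.var j.2)))
  obtain ⟨x, hx⟩ := approxN hN (fun o : (Option (({S : Sy // S.bd K} × ι × ι) ⊕ (ι × ι))) × Bool =>
    (δ o.1).relabel (fun i : ι => (if o.2 then Sum.inl i else Sum.inr i : ι ⊕ ι))) (Sum.elim v w)
  have e1 : ∀ (X : Type) (v w : ι → X),
      (Sum.elim v w ∘ fun i : ι => (if true then Sum.inl i else Sum.inr i : ι ⊕ ι)) = v := fun X v w => rfl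
  have e2 : ∀ (X : Type) (v w : ι → X),
      (Sum.elim v w ∘ fun i : ι => (if false then Sum.inl i else Sum.inr i : ι ⊕ ι)) = w := by
    intro X v w
    funext i
    simp
  have hv : ∀ o, (δ o).Realize (x ∘ Sum.inl) ↔ (δ o).Realize v := by
    intro o
    have h1 := hx (o, true)
    rw [Formula.realize_relabel, Formula.realize_relabel] at h1
    exact h1
  have hw : ∀ o, (δ o).Realize (x ∘ Sum.inr) ↔ (δ o).Realize w := by
    intro o
    have h1 := hx (o, false)
    rw [Formula.realize_relabel, Formula.realize_relabel] at h1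
    simp only [e2] at h1
    exact h1
  have h1 : Eqv K (x ∘ Sum.inl) (x ∘ Sum.inr) := by
    refine ⟨fun S hS i j => ?_, fun i j => ?_⟩
    · have h2 := hv (some (.inl (⟨S, hS⟩, i, j)))
      have h3 := hw (some (.inl (⟨S, hS⟩, i, j)))
      simp only [δ, Option.elim_some, Sum.elim_inl, atS_realize] at h2 h3
      exact h2.trans ((h.1 S hS i j).trans h3.symm)
    · have h2 := hv (some (.inr (i, j)))
      have h3 := hw (some (.inr (i, j)))
      simp only [δ, Option.elim_some, Sum.elim_inr, equal_realize] at h2 h3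
      exact h2.trans ((h.2 i j).trans h3.symm)
  exact (hv none).symm.trans ((hK _ _ h1).trans (hw none))

end SSF
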