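import Pool.Agent.SSF.Defs

/-!
# SSF: the one-point extension property of the example

Two tuples of `MM` with the same atomic formulas with parameters at most `K`: every extension of the
first by one element has a counterpart for the second.
-/

set_option autoImplicit false

namespace SSF

open FirstOrder FirstOrder.Language

private theorem Ext_symm (S : Sy) (K : ℕ) (hS : S.bd K) :
    ∃ S' : Sy, S'.bd K ∧ ∀ a b : MM, rel S a b ↔ rel S' b a := by
  cases S with
  | E κ κ' s r =>
    refine ⟨.E κ' κ s r, ⟨hS.2.1, hS.1, hS.2.2⟩, fun a b => ?_⟩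
    rw [rel_iff, rel_iff]
    constructor
    · rintro ⟨h1, h2, h3, h4, h5⟩
      exact ⟨h2, h1, h4, h3, fun i hi j hj => (h5 i hi j hj).symm⟩
    · rintro ⟨h1, h2, h3, h4, h5⟩
      exact ⟨h2, h1, h4, h3, fun i hi j hj => (h5 i hi j hj).symm⟩
  | P t t' s =>
    refine ⟨.P t' t s, ⟨hS.2.1, hS.1, hS.2.2⟩, fun a b => ?_⟩
    rw [rel_iff, rel_iff]
    constructor
    · rintro ⟨h1, h2, h3, h4, h5⟩
      exact ⟨h2, h1, h4, h3, fun i hi => (h5 i hi).symm⟩
    · rintro ⟨h1, h2, h3, h4, h5⟩
      exact ⟨h2, h1, h4, h3, fun i hi => (h5 i hi).symm⟩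

/-- the kind is bounded by `K` or infinite -/
def act (K : ℕ) (κ : Option ℕ) : Prop := ∀ t, κ = some t → t ≤ K

theorem kd_of_eqv {ι : Type} {K : ℕ} {x y : ι → MM} (h : Eqv K x y) (i : ι) {κ : Option ℕ}
    (hκ : act K κ) : kd (x i) = κ ↔ kd (y i) = κ := by
  have h1 := h.1 (.E κ κ 0 0) ⟨hκ, hκ, Nat.zero_le _, Nat.zero_le _⟩ i i
  rw [rel_iff, rel_iff] at h1
  have h0 : leK 0 κ := by cases κ <;> simp [leK]
  have hag : ∀ z w : MM, agr 0 0 z w := fun z w i hi => absurd hi (Nat.not_lt_zero _)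
  constructor
  · intro hk
    exact (h1.1 ⟨hk, hk, h0, h0, hag _ _⟩).1
  · intro hk
    exact (h1.2 ⟨hk, hk, h0, h0, hag _ _⟩).1

private theorem Ext_agr {ι : Type} {K : ℕ} {x y : ι → MM} (h : Eqv K x y) {k l : ι}
    (hk : act K (kd (x k))) (hl : act K (kd (x l))) {s r : ℕ} (hs : s ≤ K) (hr : r ≤ K)
    (h1 : leK s (kd (x k))) (h2 : leK s (kd (x l))) :
    agr s r (x k) (x l) ↔ agr s r (y k) (y l) := by
  have h3 := h.1 (.E (kd (x k)) (kd (x l)) s r) ⟨hk, hl, hs, hr⟩ k l
  rw [rel_iff, rel_iff] at h3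
  have hk' := (kd_of_eqv h k hk).1 rfl
  have hl' := (kd_of_eqv h l hl).1 rfl
  constructor
  · intro h4
    exact (h3.1 ⟨rfl, rfl, h1, h2, h4⟩).2.2.2.2
  · intro h4
    exact (h3.2 ⟨hk', hl', h1, h2, h4⟩).2.2.2.2

private theorem Ext_P {ι : Type} {K : ℕ} {x y : ι → MM} (h : Eqv K x y) {k l : ι} {t t' s : ℕ}
    (hk : kd (x k) = some t) (hl : kd (x l) = some t') (htK : t ≤ K) (htK' : t' ≤ K)
    (hs : s ≤ t) (hs' : s ≤ t') :
    (∀ i < s, row (x k) i = row (x l) i) ↔ ∀ i < s, row (y k) i = row (y l) i := by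
  have h3 := h.1 (.P t t' s) ⟨htK, htK', hs.trans htK⟩ k l
  rw [rel_iff, rel_iff] at h3
  have ht : act K (some t) := fun u hu => by cases hu; exact htK
  have ht' : act K (some t') := fun u hu => by cases hu; exact htK'
  have hk' := (kd_of_eqv h k ht).1 hk
  have hl' := (kd_of_eqv h l ht').1 hl
  constructor
  · intro h4
    exact (h3.1 ⟨hk, hl, hs, hs', h4⟩).2.2.2.2
  · intro h4
    exact (h3.2 ⟨hk', hl', hs, hs', h4⟩).2.2.2.2

/-- the element `x k` is relevant for the digit `j` of row `i` of the new element -/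
private def Ext_R {ι : Type} (K : ℕ) (x : ι → MM) (a : MM) (i j : ℕ) (k : ι) : Prop :=
  act K (kd (x k)) ∧ leK (i + 1) (kd (x k)) ∧ agr i (j + 1) a (x k) ∧
    ∀ j' < j, (row a i).testBit j' = (row (x k) i).testBit j'

private theorem leK_mono {s s' : ℕ} {κ : Option ℕ} (h : leK s κ) (hs : s' ≤ s) : leK s' κ := by
  cases κ with
  | none => trivial
  | some t => exact hs.trans h

private theorem agr_succ {s r : ℕ} {z w : MM} (h : agr s r z w)
    (h' : ∀ j < r, (row z s).testBit j = (row w s).testBit j) : agr (s + 1) r z w := by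
  intro i hi j hj
  rcases Nat.lt_succ_iff_lt_or_eq.1 hi with h1 | h1
  · exact h i h1 j hj
  · subst h1
    exact h' j hj

private theorem agr_symm {s r : ℕ} {z w : MM} (h : agr s r z w) : agr s r w z :=
  fun i hi j hj => (h i hi j hj).symm

private theorem agr_trans {s r : ℕ} {z w u : MM} (h : agr s r z w) (h' : agr s r w u) : agr s r z u :=
  fun i hi j hj => (h i hi j hj).trans (h' i hi j hj)

private theorem agr_mono {s r s' r' : ℕ} {z w : MM} (h : agr s r z w) (hs : s' ≤ s) (hr : r' ≤ r) :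
    agr s' r' z w := fun i hi j hj => h i (hi.trans_le hs) j (hj.trans_le hr)

private theorem Ext_cons {ι : Type} {K : ℕ} {x y : ι → MM} (h : Eqv K x y) {a : MM} {i j : ℕ}
    (hi : i < K) (hj : j < K) {k l : ι} (hk : Ext_R K x a i j k) (hl : Ext_R K x a i j l) :
    ((row (x k) i).testBit j = (row (x l) i).testBit j) ↔
      ((row (y k) i).testBit j = (row (y l) i).testBit j) := by
  obtain ⟨k1, k2, k3, k4⟩ := hk
  obtain ⟨l1, l2, l3, l4⟩ := hl
  have e1 : agr i (j + 1) (x k) (x l) := agr_trans (agr_symm k3) l3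
  have e2 : ∀ j' < j, (row (x k) i).testBit j' = (row (x l) i).testBit j' :=
    fun j' hj' => (k4 j' hj').symm.trans (l4 j' hj')
  have e3 : agr (i + 1) j (x k) (x l) := agr_succ (agr_mono e1 le_rfl (Nat.le_succ j)) e2
  have f1 := (Ext_agr h k1 l1 hi.le hj (leK_mono k2 (Nat.le_succ i)) (leK_mono l2 (Nat.le_succ i))).1 e1
  have f3 := (Ext_agr h k1 l1 hi hj.le k2 l2).1 e3
  have f4 := Ext_agr h k1 l1 (s := i + 1) (r := j + 1) hi hj k2 l2
  constructor
  · intro h1
    have g : agr (i + 1) (j + 1) (x k) (x l) := by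
      refine agr_succ e1 fun j' hj' => ?_
      rcases Nat.lt_succ_iff_lt_or_eq.1 hj' with h2 | h2
      · exact e2 j' h2
      · subst h2
        exact h1
    exact f4.1 g i (Nat.lt_succ_self i) j (Nat.lt_succ_self j)
  · intro h1
    have g : agr (i + 1) (j + 1) (y k) (y l) := by
      refine agr_succ f1 fun j' hj' => ?_
      rcases Nat.lt_succ_iff_lt_or_eq.1 hj' with h2 | h2
      · exact f3 i (Nat.lt_succ_self i) j' h2
      · subst h2
        exact h1
    exact f4.2 g i (Nat.lt_succ_self i) j (Nat.lt_succ_self j)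

private theorem Ext_beta {ι : Type} {K : ℕ} {x y : ι → MM} (h : Eqv K x y) (a : MM) :
    ∃ β : ℕ → ℕ → Bool, ∀ i < K, ∀ j < K, ∀ k, Ext_R K x a i j k →
      β i j = xor ((row (y k) i).testBit j) (xor ((row a i).testBit j) ((row (x k) i).testBit j)) := by
  classical
  refine ⟨fun i j => if hk : ∃ k, Ext_R K x a i j k then
      xor ((row (y hk.choose) i).testBit j) (xor ((row a i).testBit j) ((row (x hk.choose) i).testBit j))
    else false, fun i hi j hj k hk => ?_⟩
  have hex : ∃ k, Ext_R K x a i j k := ⟨k, hk⟩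
  show (if hk : ∃ k, Ext_R K x a i j k then
      xor ((row (y hk.choose) i).testBit j) (xor ((row a i).testBit j) ((row (x hk.choose) i).testBit j))
    else false) = _
  rw [dif_pos hex]
  have hc := Ext_cons h hi hj hex.choose_spec hk
  revert hc
  generalize (row (x hex.choose) i).testBit j = b1
  generalize (row (x k) i).testBit j = b2
  generalize (row (y hex.choose) i).testBit j = b3
  generalize (row (y k) i).testBit j = b4
  generalize (row a i).testBit j = b5
  revert b1 b2 b3 b4 b5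
  decide

private theorem Ext_main {ι : Type} {K : ℕ} {x y : ι → MM} {a : MM} {β : ℕ → ℕ → Bool}
    (hβ : ∀ i < K, ∀ j < K, ∀ k, Ext_R K x a i j k →
      β i j = xor ((row (y k) i).testBit j) (xor ((row a i).testBit j) ((row (x k) i).testBit j)))
    {k : ι} (hk : act K (kd (x k))) {s r : ℕ} (hs : s ≤ K) (hr : r ≤ K) (h1 : leK s (kd (x k))) :
    agr s r a (x k) ↔ ∀ i < s, ∀ j < r, β i j = (row (y k) i).testBit j := by
  constructor
  · intro h i hi j hj
    have hR : Ext_R K x a i j k :=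
      ⟨hk, leK_mono h1 hi, agr_mono h hi.le hj, fun j' hj' => h i hi j' (hj'.trans hj)⟩
    rw [hβ i (hi.trans_le hs) j (hj.trans_le hr) k hR, h i hi j hj]
    generalize (row (x k) i).testBit j = b1
    generalize (row (y k) i).testBit j = b2
    revert b1 b2
    decide
  · intro h i
    induction i using Nat.strong_induction_on with
    | _ i ihi =>
      intro hi j
      induction j using Nat.strong_induction_on with
      | _ j ihj =>
        intro hj
        have hR : Ext_R K x a i j k :=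
          ⟨hk, leK_mono h1 hi, fun i' hi' j' hj' => ihi i' hi' (hi'.trans hi) j' (lt_of_lt_of_le hj' hj),
            fun j' hj' => ihj j' hj' (hj'.trans hj)⟩
        have h2 := hβ i (hi.trans_le hs) j (hj.trans_le hr) k hR
        rw [h i hi j hj] at h2
        revert h2
        generalize (row (x k) i).testBit j = b1
        generalize (row (y k) i).testBit j = b2
        generalize (row a i).testBit j = b3
        revert b1 b2 b3
        decide

/-- a name with prescribed first digits outside of a finite set -/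
theorem fresh (K : ℕ) (β : ℕ → Bool) (F : Finset ℕ) : ∃ m : ℕ, m ∉ F ∧ ∀ j < K, m.testBit j = β j := by
  refine ⟨2 ^ K * (F.sup id + 1) + Nat.ofBits (fun j : Fin K => β j), ?_, ?_⟩
  · intro hm
    have h1 : 2 ^ K * (F.sup id + 1) + Nat.ofBits (fun j : Fin K => β j) ≤ F.sup id := Finset.le_sup (f := id) hm
    have h2 : 1 ≤ 2 ^ K := Nat.one_le_two_pow
    have h3 : F.sup id + 1 ≤ 2 ^ K * (F.sup id + 1) := Nat.le_mul_of_pos_left _ h2
    omega
  · intro j hj
    rw [Nat.testBit_two_pow_mul_add _ (Nat.ofBits_lt_two_pow _), if_pos hj, Nat.testBit_ofBits_lt _ _ hj]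

private def Ext_Pk {ι : Type} (K : ℕ) (x : ι → MM) (a : MM) (i : ℕ) (k : ι) : Prop :=
  (∃ t ≤ K, kd a = some t ∧ i < t) ∧ (∃ t ≤ K, kd (x k) = some t ∧ i < t) ∧
    ∀ i' ≤ i, row a i' = row (x k) i'

private theorem Ext_name {ι : Type} [Finite ι] {K : ℕ} {x y : ι → MM} (h : Eqv K x y) {a : MM}
    {β : ℕ → ℕ → Bool} (hβ : ∀ i < K, ∀ j < K, ∀ k, Ext_R K x a i j k →
      β i j = xor ((row (y k) i).testBit j) (xor ((row a i).testBit j) ((row (x k) i).testBit j))) (i : ℕ) :
    ∃ m : ℕ, (∀ j < K, i < K → m.testBit j = β i j) ∧ (∀ k, Ext_Pk K x a i k → m = row (y k) i) ∧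
      ((∀ k, ¬ Ext_Pk K x a i k) → ∀ k, m ≠ row (y k) i) := by
  classical
  have := Fintype.ofFinite ι
  by_cases hex : ∃ k, Ext_Pk K x a i k
  · obtain ⟨k, hk⟩ := hex
    refine ⟨row (y k) i, ?_, ?_, fun h' => absurd hk (h' k)⟩
    · intro j hj hiK
      obtain ⟨⟨t, htK, hta, hit⟩, ⟨t', htK', htx, hit'⟩, hrow⟩ := hk
      have hact : act K (kd (x k)) := fun u hu => by
        rw [htx] at hu
        cases hu
        exact htK'
      have hle : leK (i + 1) (kd (x k)) := by
        rw [htx]
        exact hit'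
      have hR : Ext_R K x a i j k :=
        ⟨hact, hle, fun i' hi' j' _ => by rw [hrow i' hi'.le], fun j' _ => by rw [hrow i le_rfl]⟩
      rw [hβ i hiK j hj k hR, hrow i le_rfl]
      generalize (row (x k) i).testBit j = b1
      generalize (row (y k) i).testBit j = b2
      revert b1 b2
      decide
    · intro l hl
      obtain ⟨_, ⟨t, htK, htx, hit⟩, hrow⟩ := hk
      obtain ⟨_, ⟨t', htK', htx', hit'⟩, hrow'⟩ := hl
      have h1 := (Ext_P h htx htx' htK htK' (s := i + 1) hit hit').1
        (fun i' hi' => (hrow i' (Nat.lt_succ_iff.1 hi')).symm.trans (hrow' i' (Nat.lt_succ_iff.1 hi')))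
      exact h1 i (Nat.lt_succ_self i)
  · push Not at hex
    obtain ⟨m, hm, hm'⟩ := fresh K (β i) (Finset.univ.image fun k => row (y k) i)
    refine ⟨m, fun j hj _ => hm' j hj, fun k hk => absurd hk (hex k), fun _ k hk => hm ?_⟩
    rw [Finset.mem_image]
    exact ⟨k, Finset.mem_univ _, hk.symm⟩

/-- sufficient conditions for the counterpart -/
private theorem Ext_fin {ι : Type} {K : ℕ} {x y : ι → MM} (h : Eqv K x y) {a b : MM}
    (hk : ∀ κ, act K κ → (kd a = κ ↔ kd b = κ))
    (he : act K (kd a) → ∀ i, act K (kd (x i)) → ∀ s ≤ K, ∀ r ≤ K, leK s (kd a) → leK s (kd (x i)) →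
      (agr s r a (x i) ↔ agr s r b (y i)))
    (hp : ∀ i t t', t ≤ K → t' ≤ K → kd a = some t → kd (x i) = some t' → ∀ s ≤ t, s ≤ t' →
      ((∀ i' < s, row a i' = row (x i) i') ↔ ∀ i' < s, row b i' = row (y i) i'))
    (hq : ∀ i, (a = x i ↔ b = y i)) :
    (∀ S : Sy, S.bd K → (rel S a a ↔ rel S b b) ∧ ∀ i, (rel S a (x i) ↔ rel S b (y i)) ∧
      (rel S (x i) a ↔ rel S (y i) b)) ∧ ∀ i, (a = x i ↔ b = y i) := by
  have key : ∀ S : Sy, S.bd K → ∀ i, (rel S a (x i) ↔ rel S b (y i)) := by
    intro S hS i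
    cases S with
    | E κ κ' s r =>
      rw [rel_iff, rel_iff]
      obtain ⟨b1, b2, b3, b4⟩ := hS
      constructor
      · rintro ⟨h1, h2, h3, h4, h5⟩
        have e1 := (hk κ b1).1 h1
        have e2 := (kd_of_eqv h i b2).1 h2
        refine ⟨e1, e2, h3, h4, ?_⟩
        exact (he (by rw [h1]; exact b1) i (by rw [h2]; exact b2) s b3 r b4 (by rw [h1]; exact h3)
          (by rw [h2]; exact h4)).1 h5
      · rintro ⟨h1, h2, h3, h4, h5⟩
        have e1 := (hk κ b1).2 h1
        have e2 := (kd_of_eqv h i b2).2 h2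
        refine ⟨e1, e2, h3, h4, ?_⟩
        exact (he (by rw [e1]; exact b1) i (by rw [e2]; exact b2) s b3 r b4 (by rw [e1]; exact h3)
          (by rw [e2]; exact h4)).2 h5
    | P t t' s =>
      rw [rel_iff, rel_iff]
      obtain ⟨b1, b2, b3⟩ := hS
      have c1 : act K (some t) := fun u hu => by cases hu; exact b1
      have c2 : act K (some t') := fun u hu => by cases hu; exact b2
      constructor
      · rintro ⟨h1, h2, h3, h4, h5⟩
        exact ⟨(hk _ c1).1 h1, (kd_of_eqv h i c2).1 h2, h3, h4,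
          (hp i t t' b1 b2 h1 h2 s h3 h4).1 h5⟩
      · rintro ⟨h1, h2, h3, h4, h5⟩
        have e1 := (hk _ c1).2 h1
        have e2 := (kd_of_eqv h i c2).2 h2
        exact ⟨e1, e2, h3, h4, (hp i t t' b1 b2 e1 e2 s h3 h4).2 h5⟩
  refine ⟨fun S hS => ⟨?_, fun i => ⟨key S hS i, ?_⟩⟩, hq⟩
  · cases S with
    | E κ κ' s r =>
      rw [rel_iff, rel_iff]
      obtain ⟨b1, b2, b3, b4⟩ := hS
      constructor
      · rintro ⟨h1, h2, h3, h4, -⟩
        exact ⟨(hk _ b1).1 h1, (hk _ b2).1 h2, h3, h4, fun _ _ _ _ => rfl⟩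
      · rintro ⟨h1, h2, h3, h4, -⟩
        exact ⟨(hk _ b1).2 h1, (hk _ b2).2 h2, h3, h4, fun _ _ _ _ => rfl⟩
    | P t t' s =>
      rw [rel_iff, rel_iff]
      obtain ⟨b1, b2, b3⟩ := hS
      have c1 : act K (some t) := fun u hu => by cases hu; exact b1
      have c2 : act K (some t') := fun u hu => by cases hu; exact b2
      constructor
      · rintro ⟨h1, h2, h3, h4, -⟩
        exact ⟨(hk _ c1).1 h1, (hk _ c2).1 h2, h3, h4, fun _ _ => rfl⟩
      · rintro ⟨h1, h2, h3, h4, -⟩
        exact ⟨(hk _ c1).2 h1, (hk _ c2).2 h2, h3, h4, fun _ _ => rfl⟩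
  · obtain ⟨S', hS', hsw⟩ := Ext_symm S K hS
    rw [hsw, hsw]
    exact key S' hS' i

theorem row_ofFn (t : ℕ) (m : ℕ → ℕ) {i : ℕ} (hi : i < t) :
    row (.inl (List.ofFn fun j : Fin t => m j)) i = m i := by
  show (List.ofFn fun j : Fin t => m j).getD i 0 = m i
  rw [List.getD_eq_getElem _ _ (by simpa using hi), List.getElem_ofFn]

theorem eq_of_rows {a b : MM} {t : ℕ} (ha : kd a = some t) (hb : kd b = some t)
    (h : ∀ i < t, row a i = row b i) : a = b := by
  rcases a with l | f
  · rcases b with l' | f'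
    · have h1 : l.length = t := by simpa [kd] using ha
      have h2 : l'.length = t := by simpa [kd] using hb
      congr 1
      refine List.ext_getElem (h1.trans h2.symm) fun i hi hi' => ?_
      have h3 := h i (h1 ▸ hi)
      have e1 : row (.inl l) i = l[i] := List.getD_eq_getElem _ _ hi
      have e2 : row (.inl l') i = l'[i] := List.getD_eq_getElem _ _ hi'
      rw [e1, e2] at h3
      exact h3
    · simp [kd] at hb
  · simp [kd] at ha

theorem ext {ι : Type} [Finite ι] {K : ℕ} {x y : ι → MM} (h : Eqv K x y) (a : MM) :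
    ∃ b : MM, (∀ S : Sy, S.bd K → (rel S a a ↔ rel S b b) ∧ ∀ i, (rel S a (x i) ↔ rel S b (y i)) ∧
      (rel S (x i) a ↔ rel S (y i) b)) ∧ ∀ i, (a = x i ↔ b = y i) := by
  classical
  have := Fintype.ofFinite ι
  by_cases hax : ∃ k, a = x k
  · obtain ⟨k, rfl⟩ := hax
    exact ⟨y k, fun S hS => ⟨h.1 S hS k k, fun i => ⟨h.1 S hS k i, h.1 S hS i k⟩⟩, fun i => h.2 k i⟩
  push Not at hax
  obtain ⟨β, hβ⟩ := Ext_beta h a
  choose m hm1 hm2 hm3 using Ext_name h hβ
  rcases hka : kd a with _ | t
  · -- infinite sequences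
    have hact : act K (kd a) := fun u hu => by rw [hka] at hu; cases hu
    have hnoP : ∀ i k, ¬ Ext_Pk K x a i k := by
      rintro i k ⟨⟨t, -, h1, -⟩, -⟩
      rw [hka] at h1
      cases h1
    set f : ℕ →₀ ℕ := Finsupp.onFinset (Finset.range (K + 1)) (fun i => if i < K + 1 then m i else 0)
      (fun i hi => by
        rw [Finset.mem_range]
        by_contra hcon
        rw [if_neg hcon] at hi
        exact hi rfl) with hf
    have hfr : ∀ i < K + 1, row (.inr f) i = m i := by
      intro i hi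
      show (if i < K + 1 then m i else 0) = m i
      rw [if_pos hi]
    refine ⟨.inr f, Ext_fin h ?_ ?_ ?_ ?_⟩
    · intro κ hκ
      rw [hka]
      exact Iff.rfl
    · intro _ i hi s hs r hr _ h2
      rw [Ext_main hβ hi hs hr h2]
      refine forall₂_congr fun i' hi' => forall₂_congr fun j hj => ?_
      rw [hfr i' (by omega), hm1 i' j (hj.trans_le hr) (hi'.trans_le hs)]
    · intro i t t' _ _ h1
      rw [hka] at h1
      cases h1
    · intro k
      refine ⟨fun h1 => absurd h1 (hax k), fun h1 => ?_⟩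
      exfalso
      refine hm3 K (hnoP K) k ?_
      rw [← h1, hfr K (Nat.lt_succ_self K)]
  by_cases htK : t ≤ K
  · -- finite sequences of bounded length
    have hact : act K (kd a) := fun u hu => by
      rw [hka] at hu
      cases hu
      exact htK
    set b : MM := .inl (List.ofFn fun j : Fin t => m j) with hb
    have hkb : kd b = some t := by simp [kd, hb]
    have hfr : ∀ i < t, row b i = m i := fun i hi => row_ofFn t m hi
    have hpp : ∀ i t', t' ≤ K → kd (x i) = some t' → ∀ s ≤ t, s ≤ t' →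
        ((∀ i' < s, row a i' = row (x i) i') ↔ ∀ i' < s, row b i' = row (y i) i') := by
      have hfwd : ∀ i t', t' ≤ K → kd (x i) = some t' → ∀ s ≤ t, s ≤ t' →
          (∀ i' < s, row a i' = row (x i) i') → ∀ i' < s, row b i' = row (y i) i' := by
        intro i t' ht' hxi s hs hs' h1 i' hi'
        rw [hfr i' (hi'.trans_le hs)]
        exact hm2 i' i ⟨⟨t, htK, hka, hi'.trans_le hs⟩, ⟨t', ht', hxi, hi'.trans_le hs'⟩,
          fun i'' hi'' => h1 i'' (lt_of_le_of_lt hi'' hi')⟩
      intro i t' ht' hxi s hs hs'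
      refine ⟨hfwd i t' ht' hxi s hs hs', fun h1 i' => ?_⟩
      induction i' using Nat.strong_induction_on with
      | _ i' ih =>
        intro hi'
        by_contra hne
        by_cases hex : ∃ l, Ext_Pk K x a i' l
        · obtain ⟨l, hl⟩ := hex
          obtain ⟨-, ⟨t2, ht2, hxl, hit2⟩, hrow⟩ := hl
          have h2 := hfwd l t2 ht2 hxl (i' + 1) (hi'.trans_le hs) hit2
            (fun i'' hi'' => hrow i'' (Nat.lt_succ_iff.1 hi''))
          have h3 := (Ext_P h hxl hxi ht2 ht' (s := i' + 1) hit2 (hi'.trans_le hs')).2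
            (fun i'' hi'' => (h2 i'' hi'').symm.trans (h1 i'' (lt_of_lt_of_le hi'' hi')))
          exact hne ((hrow i' le_rfl).trans (h3 i' (Nat.lt_succ_self i')))
        · push Not at hex
          have h2 := h1 i' hi'
          rw [hfr i' (hi'.trans_le hs)] at h2
          exact hm3 i' hex i h2
    refine ⟨b, Ext_fin h ?_ ?_ ?_ ?_⟩
    · intro κ hκ
      rw [hka, hkb]
    · intro _ i hi s hs r hr h1 h2
      rw [Ext_main hβ hi hs hr h2]
      have hst : s ≤ t := by
        rw [hka] at h1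
        exact h1
      refine forall₂_congr fun i' hi' => forall₂_congr fun j hj => ?_
      rw [hfr i' (hi'.trans_le hst), hm1 i' j (hj.trans_le hr) (hi'.trans_le hs)]
    · intro i t1 t' _ h2 h3 h4 s hs hs'
      rw [hka] at h3
      cases h3
      exact hpp i t' h2 h4 s hs hs'
    · intro k
      refine ⟨fun h1 => absurd h1 (hax k), fun h1 => ?_⟩
      have hk1 : kd (y k) = some t := by rw [← h1, hkb]
      have hk2 := (kd_of_eqv h k (κ := some t) (fun u hu => by cases hu; exact htK)).2 hk1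
      refine eq_of_rows hka hk2 ((hpp k t htK hk2 t le_rfl le_rfl).2 fun i' _ => by rw [h1])
  · -- long finite sequences
    obtain ⟨q, hq, -⟩ := fresh 0 (fun _ => false) (Finset.univ.image fun k => row (y k) 0)
    have hb : kd (.inl (List.replicate (K + 1) q)) = some (K + 1) := by simp [kd]
    refine ⟨.inl (List.replicate (K + 1) q), Ext_fin h ?_ ?_ ?_ ?_⟩
    · intro κ hκ
      rw [hka, hb]
      constructor
      · intro h1
        exact absurd (hκ t h1.symm) htK
      · intro h1
        have := hκ (K + 1) h1.symm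
        omega
    · intro h1
      exact absurd (h1 t hka) htK
    · intro i t1 t' h1 _ h3
      rw [hka] at h3
      cases h3
      exact absurd h1 htK
    · intro k
      refine ⟨fun h1 => absurd h1 (hax k), fun h1 => ?_⟩
      exfalso
      apply hq
      rw [Finset.mem_image]
      refine ⟨k, Finset.mem_univ _, ?_⟩
      rw [← h1]
      show (List.replicate (K + 1) q).getD 0 0 = q
      simp

end SSF
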