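import Pool.Agent.SSF.Ext

/-!
# SSF: formulas are invariant under the equivalences `Eqv K`
-/

set_option autoImplicit false

namespace SSF

open FirstOrder FirstOrder.Language

theorem Sy.bd_mono {K K' : ℕ} (h : K ≤ K') {S : Sy} (hS : S.bd K) : S.bd K' := by
  cases S with
  | E κ κ' s r =>
    obtain ⟨h1, h2, h3, h4⟩ := hS
    exact ⟨fun t ht => (h1 t ht).trans h, fun t ht => (h2 t ht).trans h, h3.trans h, h4.trans h⟩
  | P t t' s =>
    obtain ⟨h1, h2, h3⟩ := hS
    exact ⟨h1.trans h, h2.trans h, h3.trans h⟩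

theorem Sy.exists_bd (S : Sy) : ∃ K, S.bd K := by
  cases S with
  | E κ κ' s r =>
    refine ⟨κ.getD 0 + κ'.getD 0 + s + r, ?_, ?_, ?_, ?_⟩
    · rintro t rfl
      simp only [Option.getD_some]
      omega
    · rintro t rfl
      simp only [Option.getD_some]
      omega
    · omega
    · omega
  | P t t' s => exact ⟨t + t' + s, by omega, by omega, by omega⟩

section
variable {N : Type} [LL.Structure N] {ι : Type}

theorem Eqv.mono {K K' : ℕ} {x y : ι → N} (h : Eqv K' x y) (hK : K ≤ K') : Eqv K x y :=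
  ⟨fun S hS => h.1 S (S.bd_mono hK hS), h.2⟩

theorem Eqv.symm {K : ℕ} {x y : ι → N} (h : Eqv K x y) : Eqv K y x :=
  ⟨fun S hS i j => (h.1 S hS i j).symm, fun i j => (h.2 i j).symm⟩

theorem Eqv.refl (K : ℕ) (x : ι → N) : Eqv K x x := ⟨fun _ _ _ _ => Iff.rfl, fun _ _ => Iff.rfl⟩

theorem Eqv.trans {K : ℕ} {x y z : ι → N} (h : Eqv K x y) (h' : Eqv K y z) : Eqv K x z :=
  ⟨fun S hS i j => (h.1 S hS i j).trans (h'.1 S hS i j), fun i j => (h.2 i j).trans (h'.2 i j)⟩

theorem Eqv.comp {ι' : Type} {K : ℕ} {x y : ι → N} (h : Eqv K x y) (f : ι' → ι) :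
    Eqv K (fun i => x (f i)) (fun i => y (f i)) :=
  ⟨fun S hS i j => h.1 S hS (f i) (f j), fun i j => h.2 (f i) (f j)⟩

end

private theorem Inv_option {ι : Type} [Finite ι] {K : ℕ} {x y : ι → MM} (h : Eqv K x y) (a : MM) :
    ∃ b : MM, Eqv K (fun o : Option ι => o.elim a x) (fun o : Option ι => o.elim b y) := by
  obtain ⟨b, hb, hb'⟩ := ext h a
  refine ⟨b, ?_, ?_⟩
  · rintro S hS (_ | i) (_ | j)
    · exact (hb S hS).1
    · exact ((hb S hS).2 j).1
    · exact ((hb S hS).2 i).2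
    · exact h.1 S hS i j
  · rintro (_ | i) (_ | j)
    · exact ⟨fun _ => rfl, fun _ => rfl⟩
    · exact hb' j
    · show x i = a ↔ y i = b
      rw [eq_comm, hb' i, eq_comm]
    · exact h.2 i j

theorem term_var {α : Type} (t : LL.Term α) : ∃ a, t = Term.var a := by
  cases t with
  | var a => exact ⟨a, rfl⟩
  | func f ts => exact Empty.elim f

private theorem Inv_b {ι : Type} [Finite ι] {m : ℕ} (φ : LL.BoundedFormula ι m) :
    ∃ K : ℕ, ∀ (v w : ι → MM) (xs ys : Fin m → MM), Eqv K (Sum.elim v xs) (Sum.elim w ys) →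
      (φ.Realize v xs ↔ φ.Realize w ys) := by
  induction φ with
  | falsum => exact ⟨0, fun v w xs ys _ => Iff.rfl⟩
  | equal t₁ t₂ =>
    obtain ⟨a, rfl⟩ := term_var t₁
    obtain ⟨b, rfl⟩ := term_var t₂
    exact ⟨0, fun v w xs ys h => h.2 a b⟩
  | @rel m l R ts =>
    choose a ha using fun i => term_var (ts i)
    obtain rfl : ts = fun i => Term.var (a i) := funext ha
    cases R with
    | of S =>
      obtain ⟨K, hK⟩ := S.exists_bd
      exact ⟨K, fun v w xs ys h => h.1 S hK (a 0) (a 1)⟩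
  | imp f₁ f₂ ih₁ ih₂ =>
    obtain ⟨K₁, h₁⟩ := ih₁
    obtain ⟨K₂, h₂⟩ := ih₂
    refine ⟨max K₁ K₂, fun v w xs ys h => ?_⟩
    show (_ → _) ↔ (_ → _)
    exact imp_congr (h₁ v w xs ys (h.mono (le_max_left _ _))) (h₂ v w xs ys (h.mono (le_max_right _ _)))
  | @all m f ih =>
    obtain ⟨K, hK⟩ := ih
    refine ⟨K, ?_⟩
    have key : ∀ (v w : ι → MM) (xs ys : Fin m → MM), Eqv K (Sum.elim v xs) (Sum.elim w ys) →
        (∀ y : MM, f.Realize v (Fin.snoc xs y)) → ∀ y : MM, f.Realize w (Fin.snoc ys y) := by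
      intro v w xs ys h hv b
      obtain ⟨a, ha⟩ := Inv_option h.symm b
      let g : ι ⊕ Fin (m + 1) → Option (ι ⊕ Fin m) :=
        Sum.elim (fun i => some (Sum.inl i)) (Fin.snoc (fun k => some (Sum.inr k)) none)
      have e : ∀ (v : ι → MM) (xs : Fin m → MM) (y : MM),
          (fun i => (g i).elim y (Sum.elim v xs)) = Sum.elim v (Fin.snoc xs y) := by
        intro v xs y
        funext i
        rcases i with i | i
        · rfl
        · refine Fin.lastCases ?_ (fun j => ?_) i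
          · simp [g]
          · simp [g]
      have h2 := (ha.comp g).symm
      simp only [e] at h2
      exact (hK v w _ _ h2).1 (hv a)
    intro v w xs ys h
    exact ⟨key v w xs ys h, key w v ys xs h.symm⟩

/-- Every formula in finitely many variables is invariant under `Eqv K` for some `K`. -/
theorem inv {ι : Type} [Finite ι] (φ : LL.Formula ι) :
    ∃ K : ℕ, ∀ v w : ι → MM, Eqv K v w → (φ.Realize v ↔ φ.Realize w) := by
  obtain ⟨K, hK⟩ := Inv_b φ
  refine ⟨K, fun v w h => ?_⟩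
  have h2 := h.comp (Sum.elim id (fun k : Fin 0 => k.elim0) : ι ⊕ Fin 0 → ι)
  have e : ∀ (v : ι → MM) (xs : Fin 0 → MM), (fun i => v (Sum.elim id (fun k : Fin 0 => k.elim0) i)) =
      Sum.elim v xs := by
    intro v xs
    funext i
    rcases i with i | i
    · rfl
    · exact i.elim0
  unfold Formula.Realize
  apply hK
  rw [e v, e w] at h2
  exact h2

end SSF
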