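import Pool.Agent.SSF.Det

/-!
# SSF: the theory of the example is small

A complete `n`-type is determined by the sets of the symbols which hold between two of the variables, and only countably many
sets of symbols occur, because `ℕ × ℕ` has only countably many lower sets.
-/

set_option autoImplicit false

namespace SSF

open FirstOrder FirstOrder.Language

private theorem Sml_lower (D : Set (ℕ × ℕ)) (hD : IsLowerSet D) :
    ∃ F : Finset (ℕ × ℕ), ∀ p, p ∈ D ↔ ∀ f ∈ F, ¬ f ≤ p := by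
  have hfin : {p | Minimal (· ∈ Dᶜ) p}.Finite :=
    (setOfPred_minimal_antichain _).finite_of_wellQuasiOrdered wellQuasiOrdered_le
  refine ⟨hfin.toFinset, fun p => ⟨?_, ?_⟩⟩
  · intro hp f hf hle
    rw [Set.Finite.mem_toFinset] at hf
    exact hf.1 (hD hle hp)
  · intro h
    by_contra hp
    obtain ⟨m, hm, hmin⟩ := exists_minimal_le_of_wellFoundedLT (· ∈ Dᶜ) p hp
    exact h m (hfin.mem_toFinset.2 hmin) hm

/-- A set of symbols two of whose members, or non-members, can be realized simultaneously. -/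
def Good (X : Set Sy) : Prop :=
  ∀ S S' : Sy, ∃ x y : MM, (S ∈ X ↔ S.Holds x y) ∧ (S' ∈ X ↔ S'.Holds x y)

private def Sml_g (c : (Option ℕ × Option ℕ × Finset (ℕ × ℕ)) × (ℕ × ℕ × Finset (ℕ × ℕ))) : Set Sy :=
  {S | match S with
    | .E κ κ' s r => κ = c.1.1 ∧ κ' = c.1.2.1 ∧ ∀ f ∈ c.1.2.2, ¬ f ≤ (s, r)
    | .P t t' s => t = c.2.1 ∧ t' = c.2.2.1 ∧ ∀ f ∈ c.2.2.2, ¬ f ≤ (s, 0)}

private theorem Sml_E {X : Set Sy} (hX : Good X) : ∃ c : Option ℕ × Option ℕ × Finset (ℕ × ℕ),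
    ∀ κ κ' s r, Sy.E κ κ' s r ∈ X ↔ κ = c.1 ∧ κ' = c.2.1 ∧ ∀ f ∈ c.2.2, ¬ f ≤ (s, r) := by
  by_cases h : ∃ κ κ' s r, Sy.E κ κ' s r ∈ X
  · obtain ⟨κ, κ', s₀, r₀, h0⟩ := h
    obtain ⟨F, hF⟩ := Sml_lower {p | Sy.E κ κ' p.1 p.2 ∈ X} (by
      intro p q hqp hp
      obtain ⟨x, y, h1, h2⟩ := hX (.E κ κ' p.1 p.2) (.E κ κ' q.1 q.2)
      obtain ⟨g1, g2, g3, g4, g5⟩ := h1.1 hp
      have mono : ∀ κ : Option ℕ, leK p.1 κ → leK q.1 κ := by
        rintro (_ | t) h
        · trivial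
        · exact le_trans hqp.1 h
      exact h2.2 ⟨g1, g2, mono _ g3, mono _ g4, fun i hi j hj =>
        g5 i (lt_of_lt_of_le hi hqp.1) j (lt_of_lt_of_le hj hqp.2)⟩)
    refine ⟨(κ, κ', F), fun κ₁ κ₁' s r => ⟨fun h1 => ?_, ?_⟩⟩
    · obtain ⟨x, y, h2, h3⟩ := hX (.E κ κ' s₀ r₀) (.E κ₁ κ₁' s r)
      obtain ⟨g1, g2, -⟩ := h2.1 h0
      obtain ⟨g3, g4, -⟩ := h3.1 h1
      rw [g1] at g3
      rw [g2] at g4
      subst g3
      subst g4
      exact ⟨rfl, rfl, (hF (s, r)).1 h1⟩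
    · rintro ⟨rfl, rfl, h1⟩
      exact (hF (s, r)).2 h1
  · push Not at h
    refine ⟨(none, none, {(0, 0)}), fun κ κ' s r => ⟨fun h1 => absurd h1 (h κ κ' s r), ?_⟩⟩
    rintro ⟨-, -, h1⟩
    exact absurd (show ((0, 0) : ℕ × ℕ) ≤ (s, r) from ⟨Nat.zero_le _, Nat.zero_le _⟩)
      (h1 (0, 0) (Finset.mem_singleton_self _))

private theorem Sml_P {X : Set Sy} (hX : Good X) : ∃ c : ℕ × ℕ × Finset (ℕ × ℕ),
    ∀ t t' s, Sy.P t t' s ∈ X ↔ t = c.1 ∧ t' = c.2.1 ∧ ∀ f ∈ c.2.2, ¬ f ≤ (s, 0) := by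
  by_cases h : ∃ t t' s, Sy.P t t' s ∈ X
  · obtain ⟨t, t', s₀, h0⟩ := h
    obtain ⟨F, hF⟩ := Sml_lower {p | Sy.P t t' p.1 ∈ X} (by
      intro p q hqp hp
      obtain ⟨x, y, h1, h2⟩ := hX (.P t t' p.1) (.P t t' q.1)
      obtain ⟨g1, g2, g3, g4, g5⟩ := h1.1 hp
      exact h2.2 ⟨g1, g2, le_trans hqp.1 g3, le_trans hqp.1 g4, fun i hi =>
        g5 i (lt_of_lt_of_le hi hqp.1)⟩)
    refine ⟨(t, t', F), fun t₁ t₁' s => ⟨fun h1 => ?_, ?_⟩⟩
    · obtain ⟨x, y, h2, h3⟩ := hX (.P t t' s₀) (.P t₁ t₁' s)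
      obtain ⟨g1, g2, -⟩ := h2.1 h0
      obtain ⟨g3, g4, -⟩ := h3.1 h1
      rw [g1] at g3
      rw [g2] at g4
      obtain rfl := Option.some_injective _ g3
      obtain rfl := Option.some_injective _ g4
      exact ⟨rfl, rfl, (hF (s, 0)).1 h1⟩
    · rintro ⟨rfl, rfl, h1⟩
      exact (hF (s, 0)).2 h1
  · push Not at h
    refine ⟨(0, 0, {(0, 0)}), fun t t' s => ⟨fun h1 => absurd h1 (h t t' s), ?_⟩⟩
    rintro ⟨-, -, h1⟩
    exact absurd (show ((0, 0) : ℕ × ℕ) ≤ (s, 0) from ⟨Nat.zero_le _, le_refl _⟩)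
      (h1 (0, 0) (Finset.mem_singleton_self _))

private theorem Sml_good : {X : Set Sy | Good X}.Countable := by
  refine (Set.countable_range Sml_g).mono ?_
  intro X hX
  obtain ⟨c, hc⟩ := Sml_E hX
  obtain ⟨d, hd⟩ := Sml_P hX
  refine ⟨(c, d), Set.ext fun S => ?_⟩
  cases S with
  | E κ κ' s r => exact (hc κ κ' s r).symm
  | P t t' s => exact (hd t t' s).symm

theorem small : Small LL MM := by
  intro n
  have : Countable {X : Set Sy // Good X} := Sml_good.to_subtype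
  have hgood : ∀ (p : (LL.completeTheory MM).CompleteType (Fin n)) (i j : Fin n),
      Good {S | Mem p (atS (LHom.id LL) S (Term.var i) (Term.var j))} := by
    intro p i j S S'
    obtain ⟨x, hx⟩ := approx p (fun b : Bool =>
      atS (LHom.id LL) (if b then S else S') (Term.var i) (Term.var j))
    refine ⟨x i, x j, ?_, ?_⟩
    · have h1 := hx true
      rw [atS_realize] at h1
      exact h1.symm
    · have h1 := hx false
      rw [atS_realize] at h1
      exact h1.symm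
  have hinj : Function.Injective (fun (p : (LL.completeTheory MM).CompleteType (Fin n))
      (ij : Fin n × Fin n) => ((⟨_, hgood p ij.1 ij.2⟩ : {X : Set Sy // Good X}),
        (Mem p ((Term.var ij.1).equal (Term.var ij.2))))) := by
    intro p q hpq
    refine detG (H := MM) (LHom.id LL) (fun i : Fin n => Term.var i) ?_ p q ?_ ?_
    · intro ψ
      obtain ⟨K, hK⟩ := inv ψ
      refine ⟨Finset.univ, K, fun x y h => hK x y ?_⟩
      exact h.comp (fun i : Fin n => (⟨i, Finset.mem_univ i⟩ : (Finset.univ : Finset (Fin n))))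
    · intro S i j
      have h1 := congrArg (fun X : {X : Set Sy // Good X} × Prop => X.1.1) (congrFun hpq (i, j))
      exact iff_of_eq (congrArg (fun X : Set Sy => S ∈ X) h1)
    · intro i j
      have h1 := congrArg (fun X : {X : Set Sy // Good X} × Prop => X.2) (congrFun hpq (i, j))
      exact iff_of_eq h1
  exact hinj.countable

end SSF
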